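import Mathlib

/-!
Lattice points enclosed by circles: basic facts.
-/

set_option autoImplicit false

open Set

namespace Pool.Agent.R357.MC

/-- squared distance of a lattice point from `c` -/
def dsq (c : ℝ × ℝ) (p : ℤ × ℤ) : ℝ := ((p.1 : ℝ) - c.1) ^ 2 + ((p.2 : ℝ) - c.2) ^ 2

/-- number of lattice points in an open disc of squared radius `a` -/
noncomputable def op (c : ℝ × ℝ) (a : ℝ) : ℕ := {p : ℤ × ℤ | dsq c p < a}.ncard

/-- number of lattice points in a closed disc of squared radius `a` -/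
noncomputable def cl (c : ℝ × ℝ) (a : ℝ) : ℕ := {p : ℤ × ℤ | dsq c p ≤ a}.ncard

lemma fin_cl (c : ℝ × ℝ) (a : ℝ) : {p : ℤ × ℤ | dsq c p ≤ a}.Finite := by
  obtain ⟨A, hA⟩ : ∃ A : ℕ, |c.1| + |c.2| + |a| + 1 ≤ A := exists_nat_ge _
  apply Set.Finite.subset ((Set.finite_Icc (-(A : ℤ)) A).prod (Set.finite_Icc (-(A : ℤ)) A))
  have key : ∀ x y : ℝ, x ^ 2 + y ^ 2 ≤ a → |x| ≤ |a| + 1 := by
    intro x y h
    by_contra hc
    push Not at hc
    have h1 : x ^ 2 = |x| ^ 2 := (sq_abs x).symm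
    have h2 := le_abs_self a
    have h3 := abs_nonneg a
    nlinarith [sq_nonneg y]
  rintro p hp
  have hp' : ((p.1 : ℝ) - c.1) ^ 2 + ((p.2 : ℝ) - c.2) ^ 2 ≤ a := hp
  have h1 := key _ _ hp'
  have h2 := key ((p.2 : ℝ) - c.2) ((p.1 : ℝ) - c.1) (by linarith)
  have b1 := abs_le.1 h1
  have b2 := abs_le.1 h2
  have b3 := abs_le.1 (le_refl |c.1|)
  have b4 := abs_le.1 (le_refl |c.2|)
  have n1 := abs_nonneg c.1
  have n2 := abs_nonneg c.2
  refine Set.mem_prod.2 ⟨⟨?_, ?_⟩, ⟨?_, ?_⟩⟩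
  · have : (-(A : ℝ)) ≤ p.1 := by linarith
    exact_mod_cast this
  · have : (p.1 : ℝ) ≤ A := by linarith
    exact_mod_cast this
  · have : (-(A : ℝ)) ≤ p.2 := by linarith
    exact_mod_cast this
  · have : (p.2 : ℝ) ≤ A := by linarith
    exact_mod_cast this

lemma fin_op (c : ℝ × ℝ) (a : ℝ) : {p : ℤ × ℤ | dsq c p < a}.Finite :=
  (fin_cl c a).subset fun p (hp : dsq c p < a) => (le_of_lt hp : dsq c p ≤ a)

lemma cl_le_op {c : ℝ × ℝ} {a b : ℝ} (h : a < b) : cl c a ≤ op c b :=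
  Set.ncard_le_ncard (fun _ hp => lt_of_le_of_lt hp h) (fin_op c b)

lemma op_mono {c : ℝ × ℝ} {a b : ℝ} (h : a ≤ b) : op c a ≤ op c b :=
  Set.ncard_le_ncard (fun _ hp => lt_of_lt_of_le hp h) (fin_op c b)

lemma op_le_cl (c : ℝ × ℝ) (a : ℝ) : op c a ≤ cl c a :=
  Set.ncard_le_ncard (fun p (hp : dsq c p < a) => (le_of_lt hp : dsq c p ≤ a)) (fin_cl c a)

/-- equivalence of centres -/
def Eqv (c c' : ℝ × ℝ) : Prop := ∀ a, op c a = op c' a ∧ cl c a = cl c' a

lemma Eqv.trans {c c' c'' : ℝ × ℝ} (h : Eqv c c') (h' : Eqv c' c'') : Eqv c c'' :=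
  fun a => ⟨(h a).1.trans (h' a).1, (h a).2.trans (h' a).2⟩

lemma Eqv.refl (c : ℝ × ℝ) : Eqv c c := fun _ => ⟨rfl, rfl⟩

lemma eqv_of {c c' : ℝ × ℝ} (e : ℤ × ℤ ≃ ℤ × ℤ) (h : ∀ p, dsq c' (e p) = dsq c p) : Eqv c c' := by
  intro a
  constructor
  · unfold op
    have : {p : ℤ × ℤ | dsq c' p < a} = e '' {p : ℤ × ℤ | dsq c p < a} := by
      ext p
      constructor
      · intro hp
        refine ⟨e.symm p, ?_, by simp⟩
        show dsq c (e.symm p) < a
        rw [← h, Equiv.apply_symm_apply]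
        exact hp
      · rintro ⟨q, hq, rfl⟩
        show dsq c' (e q) < a
        rw [h]; exact hq
    rw [this, Set.ncard_image_of_injective _ e.injective]
  · unfold cl
    have : {p : ℤ × ℤ | dsq c' p ≤ a} = e '' {p : ℤ × ℤ | dsq c p ≤ a} := by
      ext p
      constructor
      · intro hp
        refine ⟨e.symm p, ?_, by simp⟩
        show dsq c (e.symm p) ≤ a
        rw [← h, Equiv.apply_symm_apply]
        exact hp
      · rintro ⟨q, hq, rfl⟩
        show dsq c' (e q) ≤ a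
        rw [h]; exact hq
    rw [this, Set.ncard_image_of_injective _ e.injective]

lemma eqv_trans (c : ℝ × ℝ) (m n : ℤ) : Eqv c (c.1 - m, c.2 - n) := by
  apply eqv_of ((Equiv.subRight m).prodCongr (Equiv.subRight n))
  intro p
  simp only [dsq, Equiv.prodCongr_apply, Prod.map, Equiv.subRight_apply]
  push_cast
  ring

lemma eqv_swap (c : ℝ × ℝ) : Eqv c (c.2, c.1) := by
  apply eqv_of (Equiv.prodComm ℤ ℤ)
  intro p
  simp only [dsq, Equiv.prodComm_apply, Prod.fst_swap, Prod.snd_swap]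
  ring

lemma eqv_neg1 (c : ℝ × ℝ) : Eqv c (-c.1, c.2) := by
  apply eqv_of ((Equiv.neg ℤ).prodCongr (Equiv.refl ℤ))
  intro p
  simp only [dsq, Equiv.prodCongr_apply, Prod.map, Equiv.neg_apply, Equiv.refl_apply]
  push_cast
  ring

lemma eqv_abs (c : ℝ × ℝ) : Eqv c (|c.1|, |c.2|) := by
  have h1 : Eqv c (|c.1|, c.2) := by
    rcases abs_choice c.1 with h | h
    · rw [h]; exact Eqv.refl _
    · rw [h]; exact eqv_neg1 c
  have h2 : Eqv (|c.1|, c.2) (|c.1|, |c.2|) := by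
    rcases abs_choice c.2 with h | h
    · rw [h]; exact Eqv.refl _
    · rw [h]
      exact (eqv_swap (|c.1|, c.2)).trans ((eqv_neg1 (c.2, |c.1|)).trans (eqv_swap (-c.2, |c.1|)))
  exact h1.trans h2

/-- every centre is equivalent to one in a triangle -/
lemma reduce (c : ℝ × ℝ) : ∃ c' : ℝ × ℝ, 0 ≤ c'.2 ∧ c'.2 ≤ c'.1 ∧ c'.1 ≤ 1 / 2 ∧ Eqv c c' := by
  have h1 := (eqv_trans c (round c.1) (round c.2)).trans (eqv_abs (c.1 - round c.1, c.2 - round c.2))
  simp only at h1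
  have b1 := abs_sub_round c.1
  have b2 := abs_sub_round c.2
  rcases le_total |c.2 - round c.2| |c.1 - round c.1| with h | h
  · exact ⟨_, abs_nonneg _, h, b1, h1⟩
  · exact ⟨_, abs_nonneg _, h, b2, h1.trans (eqv_swap _)⟩

end Pool.Agent.R357.MC
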