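import Pool.Agent.R357.MC.Thm

set_option autoImplicit false

namespace Pool.Agent.R357.MC

/-- parameters -/
def P1748 : Par := ⟨24, 16384, 189125, 338, 9, 5, 26, 1000⟩

/-- boundary points -/
def B1748 : List (ℕ × ℕ) := (grid (2 * P1748.B + 1)).filter (onb P1748)

theorem cert1748 : Cert P1748 4096 13 100 1748 1750 B1748 where
  ok := ⟨by decide, by decide, by decide, by decide⟩
  hux := by decide
  huy := by decide
  hrho := by decide
  hN := by decide
  hB1 := by decide
  hm := by decide
  hfuel := by decide
  chk := by decide +kernel
  hk := by decide +kernel
  hS := by decide +kernel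
  hBl := rfl
  hsec := by decide +kernel
  hkT := by decide
  hTb := by decide +kernel

end Pool.Agent.R357.MC
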