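import Pool.Agent.R357.MC.Basic

/-!
A verified quadtree check for lower bounds on the number of lattice points in discs.
-/

set_option autoImplicit false

open Set

namespace Pool.Agent.R357.MC

/-- parameters: `B` the shift of coordinates, `N` the scale of centres, `num/dn` the squared radius,
`u/den` the special centre, `1/E` the half side of the special square -/
structure Par where
  B : ℕ
  N : ℕ
  num : ℕ
  dn : ℕ
  ux : ℕ
  uy : ℕ
  den : ℕ
  E : ℕ

/-- absolute difference -/
def ad (a b : ℕ) : ℕ := (a - b) + (b - a)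

lemma ad_cast (a b : ℕ) : ((ad a b : ℕ) : ℝ) = |(a : ℝ) - b| := by
  unfold ad
  rcases le_total a b with h | h
  · have h1 : a - b = 0 := Nat.sub_eq_zero_of_le h
    rw [h1, zero_add, Nat.cast_sub h, abs_of_nonpos (by
      have : (a : ℝ) ≤ b := by exact_mod_cast h
      linarith)]
    ring
  · have h1 : b - a = 0 := Nat.sub_eq_zero_of_le h
    rw [h1, add_zero, Nat.cast_sub h, abs_of_nonneg (by
      have : (b : ℝ) ≤ a := by exact_mod_cast h
      linarith)]

variable (P : Par)

/-- the point is inside all discs with centre in the box; `X, Y, h` in units `1/N`, shifted by `B` -/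
def ins (X Y h : ℕ) (p : ℕ × ℕ) : Bool :=
  Nat.blt (P.dn * ((ad (P.N * p.1) X + h) ^ 2 + (ad (P.N * p.2) Y + h) ^ 2)) (P.num * P.N ^ 2)

/-- the point is outside all discs with centre in the box -/
def out (X Y h : ℕ) (p : ℕ × ℕ) : Bool :=
  Nat.ble (P.num * P.N ^ 2) (P.dn * ((ad (P.N * p.1) X - h) ^ 2 + (ad (P.N * p.2) Y - h) ^ 2))

/-- sort the points: count down `need` at the points inside, drop those outside -/
def filt (X Y h : ℕ) : List (ℕ × ℕ) → ℕ → List (ℕ × ℕ) → Option (ℕ × List (ℕ × ℕ))
  | [], 0, _ => none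
  | [], m + 1, acc => some (m + 1, acc)
  | p :: U, need, acc =>
    match need with
    | 0 => none
    | m + 1 =>
      match ins P X Y h p with
      | true => filt X Y h U m acc
      | false =>
        match out P X Y h p with
        | true => filt X Y h U (m + 1) acc
        | false => filt X Y h U (m + 1) (p :: acc)

/-- the box is in the special square -/
def spc (X Y h : ℕ) : Bool :=
  Nat.ble (P.E * (ad (P.den * X) (P.N * (P.ux + P.den * P.B)) + P.den * h)) (P.den * P.N) &&
    Nat.ble (P.E * (ad (P.den * Y) (P.N * (P.uy + P.den * P.B)) + P.den * h)) (P.den * P.N)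

/-- the quadtree -/
def check (sp : ℕ → ℕ → ℕ → Bool) : ℕ → ℕ → ℕ → ℕ → List (ℕ × ℕ) → ℕ → Bool
  | 0, _, _, _, _, _ => false
  | fuel + 1, X, Y, h, U, need =>
    -- above the diagonal
    match Nat.blt (X + 2 * h) Y with
    | true => true
    | false =>
      -- in the special square
      match sp X Y h with
      | true => true
      | false =>
        match filt P X Y h U need [] with
        | none => true
        | some (need', V) =>
          check sp fuel (X - h / 2) (Y - h / 2) (h / 2) V need' &&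
          check sp fuel (X + h / 2) (Y - h / 2) (h / 2) V need' &&
          check sp fuel (X - h / 2) (Y + h / 2) (h / 2) V need' &&
          check sp fuel (X + h / 2) (Y + h / 2) (h / 2) V need'

/-- the integer point of a shifted pair -/
def toZ (B : ℕ) (p : ℕ × ℕ) : ℤ × ℤ := ((p.1 : ℤ) - B, (p.2 : ℤ) - B)

/-- squared radius -/
noncomputable def Par.rho2 : ℝ := (P.num : ℝ) / P.dn

/-- the special centre -/
noncomputable def Par.c0 : ℝ × ℝ := ((P.ux : ℝ) / P.den, (P.uy : ℝ) / P.den)

/-- `c` is in the box -/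
def InBox (X Y h : ℕ) (c : ℝ × ℝ) : Prop :=
  |(c.1 + P.B) * P.N - X| ≤ h ∧ |(c.2 + P.B) * P.N - Y| ≤ h

/-- `c` is in the special square -/
def InS (c : ℝ × ℝ) : Prop := |c.1 - P.c0.1| ≤ 1 / P.E ∧ |c.2 - P.c0.2| ≤ 1 / P.E

/-- positivity of the parameters -/
structure Par.Ok : Prop where
  N : 0 < P.N
  dn : 0 < P.dn
  den : 0 < P.den
  E : 0 < P.E

lemma dsq_shift (c : ℝ × ℝ) (p : ℕ × ℕ) : dsq c (toZ P.B p) * (P.N : ℝ) ^ 2 =
    ((P.N : ℝ) * p.1 - (c.1 + P.B) * P.N) ^ 2 + ((P.N : ℝ) * p.2 - (c.2 + P.B) * P.N) ^ 2 := by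
  simp only [dsq, toZ]
  push_cast
  ring

variable {P}

lemma sq_le_of_abs {x y z h : ℝ} (hz : |y - z| ≤ h) (h0 : 0 ≤ h) : (x - y) ^ 2 ≤ (|x - z| + h) ^ 2 := by
  have h1 : |x - y| ≤ |x - z| + h := by
    calc |x - y| = |(x - z) - (y - z)| := by ring_nf
      _ ≤ |x - z| + |y - z| := abs_sub _ _
      _ ≤ |x - z| + h := by linarith
  rw [← sq_abs (x - y)]
  exact pow_le_pow_left₀ (abs_nonneg _) h1 2

lemma ins_sound (hP : P.Ok) {X Y h : ℕ} {p : ℕ × ℕ} (hi : ins P X Y h p = true) {c : ℝ × ℝ}
    (hc : InBox P X Y h c) : dsq c (toZ P.B p) < P.rho2 := by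
  have hN : (0:ℝ) < P.N := by exact_mod_cast hP.N
  have hdn : (0:ℝ) < P.dn := by exact_mod_cast hP.dn
  unfold ins at hi
  rw [Nat.blt_eq] at hi
  have h1 : (P.dn : ℝ) * ((|(P.N : ℝ) * p.1 - X| + h) ^ 2 + (|(P.N : ℝ) * p.2 - Y| + h) ^ 2) <
      P.num * (P.N : ℝ) ^ 2 := by
    have : ((P.dn * ((ad (P.N * p.1) X + h) ^ 2 + (ad (P.N * p.2) Y + h) ^ 2) : ℕ) : ℝ) <
      ((P.num * P.N ^ 2 : ℕ) : ℝ) := by exact_mod_cast hi
    push_cast [ad_cast] at this
    exact this
  have h2 := sq_le_of_abs (x := (P.N : ℝ) * p.1) hc.1 (by positivity)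
  have h3 := sq_le_of_abs (x := (P.N : ℝ) * p.2) hc.2 (by positivity)
  have h4 := dsq_shift P c p
  unfold Par.rho2
  rw [lt_div_iff₀ hdn]
  have h5 : dsq c (toZ P.B p) * P.dn * (P.N : ℝ) ^ 2 < P.num * (P.N : ℝ) ^ 2 := by
    calc dsq c (toZ P.B p) * P.dn * (P.N : ℝ) ^ 2 = P.dn * (dsq c (toZ P.B p) * (P.N : ℝ) ^ 2) := by ring
      _ ≤ P.dn * ((|(P.N : ℝ) * p.1 - X| + h) ^ 2 + (|(P.N : ℝ) * p.2 - Y| + h) ^ 2) := by
        rw [h4]
        apply mul_le_mul_of_nonneg_left _ hdn.le
        linarith
      _ < _ := h1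
  exact lt_of_mul_lt_mul_right h5 (by positivity)

lemma filt_sound (hP : P.Ok) {X Y h : ℕ} {c : ℝ × ℝ} (hc : InBox P X Y h c)
    (D : ℕ × ℕ → Bool) (hD : ∀ p, dsq c (toZ P.B p) < P.rho2 → D p = true) :
    ∀ (U : List (ℕ × ℕ)) (need : ℕ) (acc : List (ℕ × ℕ)),
      (filt P X Y h U need acc = none → need ≤ (U.filter D).length) ∧
      (∀ need' V, filt P X Y h U need acc = some (need', V) →
        need + (V.filter D).length ≤ need' + (U.filter D).length + (acc.filter D).length) := by
  intro U
  induction U with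
  | nil =>
    intro need acc
    cases need with
    | zero =>
      constructor
      · intro _; exact Nat.zero_le _
      · intro need' V h; simp [filt] at h
    | succ m =>
      constructor
      · intro h; simp [filt] at h
      · intro need' V h
        simp only [filt, Option.some.injEq, Prod.mk.injEq] at h
        obtain ⟨rfl, rfl⟩ := h
        simp
  | cons p U ih =>
    intro need acc
    cases need with
    | zero =>
      constructor
      · intro _; exact Nat.zero_le _
      · intro need' V h; simp [filt] at h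
    | succ m =>
      simp only [filt]
      cases hi : ins P X Y h p with
      | true =>
        have hp := hD p (ins_sound hP hi hc)
        have e : ((p :: U).filter D).length = (U.filter D).length + 1 := by
          simp [List.filter_cons, hp]
        rw [e]
        obtain ⟨a, b⟩ := ih m acc
        simp only
        constructor
        · intro h; have := a h; omega
        · intro need' V h; have := b need' V h; omega
      | false =>
        have e : (U.filter D).length ≤ ((p :: U).filter D).length := by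
          rw [List.filter_cons]; split_ifs <;> simp
        cases ho : out P X Y h p with
        | true =>
          obtain ⟨a, b⟩ := ih (m + 1) acc
          simp only
          constructor
          · intro h; have := a h; omega
          · intro need' V h; have := b need' V h; omega
        | false =>
          obtain ⟨a, b⟩ := ih (m + 1) (p :: acc)
          simp only
          have e2 : ((p :: U).filter D).length + (acc.filter D).length =
              (U.filter D).length + ((p :: acc).filter D).length := by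
            rw [List.filter_cons, List.filter_cons]; split_ifs <;> simp <;> omega
          constructor
          · intro h; have := a h; omega
          · intro need' V h; have := b need' V h; omega

lemma special_sound (hP : P.Ok) {X h u : ℕ} {x : ℝ} (hx : |(x + P.B) * P.N - X| ≤ h)
    (hs : P.E * (ad (P.den * X) (P.N * (u + P.den * P.B)) + P.den * h) ≤ P.den * P.N) :
    |x - (u : ℝ) / P.den| ≤ 1 / P.E := by
  have hN : (0:ℝ) < P.N := by exact_mod_cast hP.N
  have hE : (0:ℝ) < P.E := by exact_mod_cast hP.E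
  have hden : (0:ℝ) < P.den := by exact_mod_cast hP.den
  have h1 : (P.E : ℝ) * (|(P.den : ℝ) * X - P.N * (u + P.den * P.B)| + P.den * h) ≤ P.den * P.N := by
    have : ((P.E * (ad (P.den * X) (P.N * (u + P.den * P.B)) + P.den * h) : ℕ) : ℝ) ≤
      ((P.den * P.N : ℕ) : ℝ) := by exact_mod_cast hs
    push_cast [ad_cast] at this
    exact this
  have h2 : |x - (u : ℝ) / P.den| * (P.den * P.N) ≤
      |(P.den : ℝ) * X - P.N * (u + P.den * P.B)| + P.den * h := by
    have e : (x - (u : ℝ) / P.den) * (P.den * P.N) =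
        ((P.den : ℝ) * X - P.N * (u + P.den * P.B)) + P.den * ((x + P.B) * P.N - X) := by
      field_simp
      ring
    calc |x - (u : ℝ) / P.den| * (P.den * P.N) = |(x - (u : ℝ) / P.den) * (P.den * P.N)| := by
          rw [abs_mul, abs_of_pos (by positivity : (0:ℝ) < P.den * P.N)]
      _ ≤ |(P.den : ℝ) * X - P.N * (u + P.den * P.B)| + |P.den * ((x + P.B) * P.N - X)| := by
          rw [e]; exact abs_add_le _ _
      _ ≤ _ := by
          rw [abs_mul, abs_of_pos hden]
          gcongr
  rw [le_div_iff₀ hE]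
  have h3 : |x - (u : ℝ) / P.den| * P.E * (P.den * P.N) ≤ 1 * (P.den * P.N) := by
    calc |x - (u : ℝ) / P.den| * P.E * (P.den * P.N) = P.E * (|x - (u : ℝ) / P.den| * (P.den * P.N)) := by ring
      _ ≤ P.E * (|(P.den : ℝ) * X - P.N * (u + P.den * P.B)| + P.den * h) := by gcongr
      _ ≤ P.den * P.N := h1
      _ = _ := by ring
  exact le_of_mul_le_mul_right h3 (by positivity)

lemma spc_sound (hP : P.Ok) {X Y h : ℕ} {c : ℝ × ℝ} (hc : InBox P X Y h c) (hs : spc P X Y h = true) :
    InS P c := by
  unfold spc at hs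
  rw [Bool.and_eq_true, Nat.ble_eq, Nat.ble_eq] at hs
  exact ⟨special_sound hP hc.1 hs.1, special_sound hP hc.2 hs.2⟩

lemma child {X h : ℕ} (hX : h ≤ X) {x : ℝ} (hx : |x - X| ≤ h) (he : 2 * (h / 2) = h) :
    |x - ((X - h / 2 : ℕ) : ℝ)| ≤ ((h / 2 : ℕ) : ℝ) ∨ |x - ((X + h / 2 : ℕ) : ℝ)| ≤ ((h / 2 : ℕ) : ℝ) := by
  have h1 : ((h / 2 : ℕ) : ℝ) * 2 = h := by
    have : (((2 * (h / 2) : ℕ)) : ℝ) = h := by rw [he]
    push_cast at this ⊢
    linarith
  have h2 : ((X - h / 2 : ℕ) : ℝ) = (X : ℝ) - ((h / 2 : ℕ) : ℝ) := by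
    rw [Nat.cast_sub (by omega)]
  have h3 : ((X + h / 2 : ℕ) : ℝ) = (X : ℝ) + ((h / 2 : ℕ) : ℝ) := by push_cast; rfl
  rw [h2, h3]
  obtain ⟨a, b⟩ := abs_le.1 hx
  rcases le_total x X with h4 | h4
  · left
    rw [abs_le]; constructor <;> linarith
  · right
    rw [abs_le]; constructor <;> linarith

lemma check_sound (hP : P.Ok) (D : ℝ × ℝ → ℕ × ℕ → Bool)
    (hD : ∀ c p, dsq c (toZ P.B p) < P.rho2 → D c p = true)
    (sp : ℕ → ℕ → ℕ → Bool) (G : ℝ × ℝ → Prop)
    (hsp : ∀ (X Y h : ℕ) (c : ℝ × ℝ), InBox P X Y h c → sp X Y h = true → G c) :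
    ∀ (fuel X Y h : ℕ) (U : List (ℕ × ℕ)) (need : ℕ), 2 ^ fuel ∣ 2 * h → h ≤ X → h ≤ Y →
      check P sp fuel X Y h U need = true → ∀ c : ℝ × ℝ, InBox P X Y h c → c.2 ≤ c.1 →
        G c ∨ need ≤ (U.filter (D c)).length := by
  intro fuel
  induction fuel with
  | zero => intro X Y h U need _ _ _ hc; simp [check] at hc
  | succ fuel ih =>
    intro X Y h U need hdiv hX hY hck c hc hcc
    have hN : (0:ℝ) < P.N := by exact_mod_cast hP.N
    rw [check] at hck
    cases h1 : Nat.blt (X + 2 * h) Y with
    | true =>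
      exfalso
      rw [Nat.blt_eq] at h1
      obtain ⟨a1, a2⟩ := abs_le.1 hc.1
      obtain ⟨b1, b2⟩ := abs_le.1 hc.2
      have h2 : (X : ℝ) + 2 * h < Y := by exact_mod_cast h1
      have h3 : (c.2 + P.B) * P.N ≤ (c.1 + P.B) * P.N := by
        apply mul_le_mul_of_nonneg_right _ hN.le; linarith
      linarith
    | false =>
      rw [h1] at hck
      simp only at hck
      cases h2 : sp X Y h with
      | true =>
        left
        exact hsp _ _ _ c hc h2
      | false =>
        rw [h2] at hck
        simp only at hck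
        obtain ⟨f1, f2⟩ := filt_sound hP hc (D c) (hD c) U need []
        cases h3 : filt P X Y h U need [] with
        | none =>
          right
          exact f1 h3
        | some r =>
          obtain ⟨need', V⟩ := r
          rw [h3] at hck
          simp only [Bool.and_eq_true] at hck
          obtain ⟨⟨⟨k1, k2⟩, k3⟩, k4⟩ := hck
          have f3 := f2 need' V h3
          simp only [List.filter_nil, List.length_nil, add_zero] at f3
          have hfuel : fuel ≠ 0 := by
            rintro rfl; simp [check] at k1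
          have hd : 2 ^ fuel ∣ h := by
            rw [pow_succ, mul_comm] at hdiv
            exact Nat.dvd_of_mul_dvd_mul_left (by norm_num) hdiv
          have he : 2 * (h / 2) = h := by
            apply Nat.mul_div_cancel'
            exact (dvd_pow_self 2 hfuel).trans hd
          have hd2 : 2 ^ fuel ∣ 2 * (h / 2) := by rw [he]; exact hd
          have fin : G c ∨ need' ≤ (V.filter (D c)).length := by
            rcases child hX hc.1 he with g1 | g1 <;> rcases child hY hc.2 he with g2 | g2
            · exact ih _ _ _ _ _ hd2 (by omega) (by omega) k1 c ⟨g1, g2⟩ hcc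
            · exact ih _ _ _ _ _ hd2 (by omega) (by omega) k3 c ⟨g1, g2⟩ hcc
            · exact ih _ _ _ _ _ hd2 (by omega) (by omega) k2 c ⟨g1, g2⟩ hcc
            · exact ih _ _ _ _ _ hd2 (by omega) (by omega) k4 c ⟨g1, g2⟩ hcc
          rcases fin with h4 | h4
          · exact Or.inl h4
          · right; omega

/-- the grid of shifted points -/
def grid (W : ℕ) : List (ℕ × ℕ) := (List.range W).flatMap fun a => (List.range W).map fun b => (a, b)

lemma mem_grid {W : ℕ} {p : ℕ × ℕ} : p ∈ grid W ↔ p.1 < W ∧ p.2 < W := by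
  unfold grid
  simp only [List.mem_flatMap, List.mem_map, List.mem_range]
  constructor
  · rintro ⟨a, ha, b, hb, rfl⟩; exact ⟨ha, hb⟩
  · rintro ⟨h1, h2⟩; exact ⟨p.1, h1, p.2, h2, rfl⟩

lemma nodup_grid (W : ℕ) : (grid W).Nodup := by
  unfold grid
  rw [List.nodup_flatMap]
  constructor
  · intro a _
    exact (List.nodup_range).map (fun b b' h => by simpa using h)
  · apply List.Nodup.pairwise_of_forall_ne List.nodup_range
    intro a _ b _ hab
    simp only [Function.onFun, List.disjoint_left, List.mem_map, not_exists, not_and]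
    rintro p ⟨x, _, rfl⟩ y _ h
    simp only [Prod.mk.injEq] at h
    exact hab h.1.symm

lemma toZ_inj (B : ℕ) : Function.Injective (toZ B) := by
  rintro ⟨a, b⟩ ⟨c, d⟩ h
  simp only [toZ, Prod.mk.injEq, sub_left_inj, Nat.cast_inj] at h
  exact Prod.ext h.1 h.2

/-- lower bound for the number of points from the grid -/
lemma length_le_ncard (B W : ℕ) (S : Set (ℤ × ℤ)) (hS : S.Finite) (D : ℕ × ℕ → Bool)
    (hD : ∀ p, D p = true → toZ B p ∈ S) : ((grid W).filter D).length ≤ S.ncard := by
  classical
  have h1 : (((grid W).filter D).map (toZ B)).Nodup := ((nodup_grid W).filter _).map (toZ_inj B)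
  have h2 : ((((grid W).filter D).map (toZ B)).toFinset : Set (ℤ × ℤ)) ⊆ S := by
    intro q hq
    simp only [List.coe_toFinset, Set.mem_ofPred_eq, List.mem_map, List.mem_filter] at hq
    obtain ⟨p, hp, rfl⟩ := hq
    exact hD p hp.2
  have h3 := Set.ncard_le_ncard h2 hS
  rw [Set.ncard_coe_finset, List.toFinset_card_of_nodup h1, List.length_map] at h3
  exact h3

/-- exact number of points from the grid -/
lemma length_eq_ncard (B W : ℕ) (S : Set (ℤ × ℤ)) (D : ℕ × ℕ → Bool)
    (hD : ∀ p, D p = true ↔ toZ B p ∈ S)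
    (hW : ∀ q ∈ S, -(B : ℤ) ≤ q.1 ∧ q.1 + B < W ∧ -(B : ℤ) ≤ q.2 ∧ q.2 + B < W) :
    ((grid W).filter D).length = S.ncard := by
  classical
  have h1 : (((grid W).filter D).map (toZ B)).Nodup := ((nodup_grid W).filter _).map (toZ_inj B)
  have h2 : ((((grid W).filter D).map (toZ B)).toFinset : Set (ℤ × ℤ)) = S := by
    ext q
    simp only [List.coe_toFinset, Set.mem_ofPred_eq, List.mem_map, List.mem_filter]
    constructor
    · rintro ⟨p, hp, rfl⟩
      exact (hD p).1 hp.2
    · intro hq
      obtain ⟨a1, a2, a3, a4⟩ := hW q hq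
      have e : toZ B ((q.1 + B).toNat, (q.2 + B).toNat) = q := by
        unfold toZ
        apply Prod.ext
        · simp only; rw [Int.toNat_of_nonneg (by omega)]; ring
        · simp only; rw [Int.toNat_of_nonneg (by omega)]; ring
      refine ⟨((q.1 + B).toNat, (q.2 + B).toNat), ⟨mem_grid.2 ⟨by simp only; omega, by simp only; omega⟩, ?_⟩, e⟩
      rw [hD, e]; exact hq
  rw [← h2, Set.ncard_coe_finset, List.toFinset_card_of_nodup h1, List.length_map]

end Pool.Agent.R357.MC
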