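import Mathlib

/-!
Definitions: lattice points enclosed by circles, largest circles, MC numbers.
-/

set_option autoImplicit false

namespace Pool.Agent.R357.MC

/-- the number of lattice points enclosed by (strictly inside) the circle with centre `c` and radius `r` -/
noncomputable def enc (c : ℝ × ℝ) (r : ℝ) : ℕ :=
  {p : ℤ × ℤ | ((p.1 : ℝ) - c.1) ^ 2 + ((p.2 : ℝ) - c.2) ^ 2 < r ^ 2}.ncard

/-- the set of the lattice points on the circle with centre `c` and radius `r` -/
def onCircle (c : ℝ × ℝ) (r : ℝ) : Set (ℤ × ℤ) :=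
  {p : ℤ × ℤ | ((p.1 : ℝ) - c.1) ^ 2 + ((p.2 : ℝ) - c.2) ^ 2 = r ^ 2}

/-- the circle with centre `c` and radius `r` is a largest circle enclosing exactly `n` lattice points -/
def IsMCCircle (n : ℕ) (c : ℝ × ℝ) (r : ℝ) : Prop :=
  0 < r ∧ enc c r = n ∧ ∀ (c' : ℝ × ℝ) (r' : ℝ), 0 < r' → enc c' r' = n → r' ≤ r

/-- `n` is MC: there is a largest circle enclosing exactly `n` lattice points -/
def IsMC (n : ℕ) : Prop := ∃ (c : ℝ × ℝ) (r : ℝ), IsMCCircle n c r

/-- `n` is a strong MC number -/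
def IsStrong (n : ℕ) : Prop := IsMC n ∧ ¬ IsMC (n + 1)

/-- the number of lattice points in the closed disc of radius `k` about the origin -/
noncomputable def g (k : ℕ) : ℕ := {p : ℤ × ℤ | p.1 ^ 2 + p.2 ^ 2 ≤ (k : ℤ) ^ 2}.ncard

/-- the number of lattice points enclosed by the circle `S_k` with centre `(1/2, 1/2)` and radius
`√(k² + k + 1/2)` -/
noncomputable def f (k : ℕ) : ℕ := enc (1 / 2, 1 / 2) (√((k : ℝ) ^ 2 + k + 1 / 2))

/-- the lattice-invariant reflections, restricted to `ℤ²`: in `x = a/2`, `y = a/2`, `y = x - a`, `y = -x + a`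
with an integer `a` -/
def IsLatRefl (σ : ℤ × ℤ → ℤ × ℤ) : Prop :=
  ∃ a : ℤ, σ = (fun p => (a - p.1, p.2)) ∨ σ = (fun p => (p.1, a - p.2)) ∨
    σ = (fun p => (p.2 + a, p.1 - a)) ∨ σ = (fun p => (a - p.2, a - p.1))

end Pool.Agent.R357.MC
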