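import Pool.Agent.R357.MC.Defs

/-!
Largest lattice circles.
-/

set_option autoImplicit false

namespace Pool.Agent.R357.MC

/-- the circle with centre `c` and radius `r` is a largest lattice circle (a circle with at least three lattice
points on it) among those enclosing exactly `n` lattice points -/
def IsLargestLatticeCircle (n : ℕ) (c : ℝ × ℝ) (r : ℝ) : Prop :=
  0 < r ∧ enc c r = n ∧ 3 ≤ (onCircle c r).ncard ∧
    ∀ (c' : ℝ × ℝ) (r' : ℝ), 0 < r' → enc c' r' = n → 3 ≤ (onCircle c' r').ncard → r' ≤ r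

open Classical in
/-- `ρ_n`: the radius of a largest `n`-enclosing lattice circle if there is one, and `0` otherwise -/
noncomputable def rhoN (n : ℕ) : ℝ :=
  if h : ∃ r : ℝ, ∃ c : ℝ × ℝ, IsLargestLatticeCircle n c r then h.choose else 0

lemma rhoN_eq {n : ℕ} {c : ℝ × ℝ} {r : ℝ} (h : IsLargestLatticeCircle n c r) : rhoN n = r := by
  have hex : ∃ r : ℝ, ∃ c : ℝ × ℝ, IsLargestLatticeCircle n c r := ⟨r, c, h⟩
  unfold rhoN
  rw [dif_pos hex]
  obtain ⟨c', h1, h2, h3, h4⟩ := hex.choose_spec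
  exact le_antisymm (h.2.2.2 _ _ h1 h2 h3) (h4 _ _ h.1 h.2.1 h.2.2.1)

end Pool.Agent.R357.MC
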