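import Pool.Agent.R357.MC.Thm

/-!
Final forms.
-/

set_option autoImplicit false

open Set

namespace Pool.Agent.R357.MC

variable {P : Par} {n4 fuel m k T : ℕ} {Bl : List (ℕ × ℕ)}

/-- non-MC numbers from a certificate, with an integral direction -/
theorem Cert.not_mc' (h : Cert P n4 fuel m k T Bl) (hnum : 0 < P.num) {n : ℕ} (j : ℕ) (hn : n = k + j)
    (hj0 : 0 < j) (hT : n < T) (w : ℤ × ℤ) (l : ℤ) (hl : 0 < l)
    (hj : (Bl.filter (fun p => decide (l < (vec P 0 p).1 * w.1 + (vec P 0 p).2 * w.2))).length = j) :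
    ¬ IsMC n := by
  have hden : (0:ℝ) < P.den := by exact_mod_cast h.ok.den
  have hl' : (0:ℝ) < l := by exact_mod_cast hl
  have h1 := h.count w l
  rw [hj] at h1
  exact h.not_mc hnum hn hj0 hT ((w.1 : ℝ), (w.2 : ℝ)) ((l : ℝ) / P.den) (by positivity) h1

lemma g_eq (k : ℕ) : g k = cl (0, 0) ((k : ℝ) ^ 2) := by
  unfold g cl
  congr 1
  ext p
  simp only [dsq, Set.mem_ofPred_eq, sub_zero]
  constructor
  · intro h; exact_mod_cast h
  · intro h; exact_mod_cast h

/-- parameters for the discs about the origin -/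
def P0 (k : ℕ) : Par := ⟨k, 1, k ^ 2, 1, 0, 0, 1, 1⟩

lemma P0_ok (k : ℕ) : (P0 k).Ok := ⟨by unfold P0; simp, by unfold P0; simp, by unfold P0; simp, by unfold P0; simp⟩

lemma g_grid (k : ℕ) : g k = ((grid (2 * k + 1)).filter (inb (P0 k))).length +
    ((grid (2 * k + 1)).filter (onb (P0 k))).length := by
  have h := cl_grid (P0_ok k) (by unfold P0; simp) (by unfold P0; simp) (by unfold P0; simp)
  rw [g_eq]
  have e1 : (P0 k).c0 = (0, 0) := by unfold Par.c0 P0; simp
  have e2 : (P0 k).rho2 = (k : ℝ) ^ 2 := by unfold Par.rho2 P0; simp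
  rw [e1, e2] at h
  exact h

/-- parameters for the circles `S_k` -/
def PS (k : ℕ) : Par := ⟨k + 1, 1, 2 * k ^ 2 + 2 * k + 1, 2, 1, 1, 2, 1⟩

lemma PS_ok (k : ℕ) : (PS k).Ok := ⟨by unfold PS; simp, by unfold PS; simp, by unfold PS; simp, by unfold PS; simp⟩

lemma f_grid (k : ℕ) : f k = ((grid (2 * (k + 1) + 1)).filter (inb (PS k))).length := by
  have h := op_grid (PS_ok k) (by unfold PS; simp) (by unfold PS; simp) (by unfold PS; simp only; nlinarith)
  have e1 : (PS k).c0 = (1 / 2, 1 / 2) := by unfold Par.c0 PS; simp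
  have e2 : (PS k).rho2 = (√((k : ℝ) ^ 2 + k + 1 / 2)) ^ 2 := by
    rw [Real.sq_sqrt (by positivity)]
    unfold Par.rho2 PS
    push_cast
    ring
  rw [e1, e2] at h
  exact h

end Pool.Agent.R357.MC
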