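import Pool.Agent.R357.MC.Check

/-!
The main theorem on discs of a fixed radius.
-/

set_option autoImplicit false

open Set

namespace Pool.Agent.R357.MC

variable (P : Par)

/-- twice-scaled squared distance from the special centre -/
def sqd (p : ℕ × ℕ) : ℕ :=
  P.dn * ((ad (P.den * p.1) (P.ux + P.den * P.B)) ^ 2 + (ad (P.den * p.2) (P.uy + P.den * P.B)) ^ 2)

/-- inside the circle with the special centre -/
def inb (p : ℕ × ℕ) : Bool := Nat.blt (sqd P p) (P.num * P.den ^ 2)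

/-- on the circle with the special centre -/
def onb (p : ℕ × ℕ) : Bool := Nat.beq (sqd P p) (P.num * P.den ^ 2)

/-- inside all circles with centre in the special square -/
def insS (p : ℕ × ℕ) : Bool :=
  Nat.blt (P.dn * ((P.E * ad (P.den * p.1) (P.ux + P.den * P.B) + P.den) ^ 2 +
    (P.E * ad (P.den * p.2) (P.uy + P.den * P.B) + P.den) ^ 2)) (P.num * (P.den * P.E) ^ 2)

variable {P}

lemma sqd_cast (hP : P.Ok) (p : ℕ × ℕ) :
    ((sqd P p : ℕ) : ℝ) = P.dn * P.den ^ 2 * dsq P.c0 (toZ P.B p) := by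
  have hden : (0:ℝ) < P.den := by exact_mod_cast hP.den
  unfold sqd
  push_cast [ad_cast]
  rw [sq_abs, sq_abs]
  simp only [dsq, toZ, Par.c0]
  push_cast
  field_simp
  ring

lemma inb_iff (hP : P.Ok) (p : ℕ × ℕ) : inb P p = true ↔ dsq P.c0 (toZ P.B p) < P.rho2 := by
  have hden : (0:ℝ) < P.den := by exact_mod_cast hP.den
  have hdn : (0:ℝ) < P.dn := by exact_mod_cast hP.dn
  unfold inb Par.rho2
  rw [Nat.blt_eq, ← Nat.cast_lt (α := ℝ), sqd_cast hP, lt_div_iff₀ hdn]
  push_cast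
  have h2 : (0:ℝ) < (P.den : ℝ) ^ 2 := by positivity
  constructor
  · intro h
    have : dsq P.c0 (toZ P.B p) * P.dn * (P.den : ℝ) ^ 2 < P.num * (P.den : ℝ) ^ 2 := by linarith
    exact lt_of_mul_lt_mul_right this h2.le
  · intro h
    have := mul_lt_mul_of_pos_right h h2
    linarith

lemma onb_iff (hP : P.Ok) (p : ℕ × ℕ) : onb P p = true ↔ dsq P.c0 (toZ P.B p) = P.rho2 := by
  have hden : (0:ℝ) < P.den := by exact_mod_cast hP.den
  have hdn : (0:ℝ) < P.dn := by exact_mod_cast hP.dn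
  unfold onb Par.rho2
  rw [Nat.beq_eq, ← Nat.cast_inj (R := ℝ), sqd_cast hP, eq_div_iff hdn.ne']
  push_cast
  have h2 : (0:ℝ) < (P.den : ℝ) ^ 2 := by positivity
  constructor
  · intro h
    have : dsq P.c0 (toZ P.B p) * P.dn * (P.den : ℝ) ^ 2 = P.num * (P.den : ℝ) ^ 2 := by linarith
    exact mul_right_cancel₀ h2.ne' this
  · intro h
    rw [← h]; ring

lemma insS_sound (hP : P.Ok) {p : ℕ × ℕ} (hi : insS P p = true) {c : ℝ × ℝ}
    (hc : InS P c) : dsq c (toZ P.B p) < P.rho2 := by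
  have hden : (0:ℝ) < P.den := by exact_mod_cast hP.den
  have hdn : (0:ℝ) < P.dn := by exact_mod_cast hP.dn
  have hE : (0:ℝ) < P.E := by exact_mod_cast hP.E
  unfold insS at hi
  rw [Nat.blt_eq, ← Nat.cast_lt (α := ℝ)] at hi
  push_cast [ad_cast] at hi
  have key : ∀ (x : ℝ) (a u : ℕ), |x - (u : ℝ) / P.den| ≤ 1 / P.E →
      ((a : ℝ) - P.B - x) ^ 2 * (P.den * P.E) ^ 2 ≤
        (P.E * |(P.den : ℝ) * a - (u + P.den * P.B)| + P.den) ^ 2 := by
    intro x a u hx
    rw [← mul_pow, ← sq_abs ((↑a - ↑P.B - x) * (P.den * P.E))]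
    apply pow_le_pow_left₀ (abs_nonneg _)
    have e : ((a : ℝ) - P.B - x) * (P.den * P.E) =
        P.E * ((P.den : ℝ) * a - (u + P.den * P.B)) - P.den * P.E * (x - (u : ℝ) / P.den) := by
      field_simp
      ring
    rw [e]
    refine (abs_sub _ _).trans ?_
    rw [abs_mul, abs_of_pos hE, abs_mul, abs_of_pos (by positivity : (0:ℝ) < P.den * P.E)]
    have h1 : (P.den : ℝ) * P.E * |x - (u : ℝ) / P.den| ≤ P.den * P.E * (1 / P.E) := by gcongr
    have h2 : (P.den : ℝ) * P.E * (1 / P.E) = P.den := by field_simp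
    linarith
  have k1 := key c.1 p.1 P.ux hc.1
  have k2 := key c.2 p.2 P.uy hc.2
  unfold Par.rho2
  rw [lt_div_iff₀ hdn]
  have e : dsq c (toZ P.B p) = ((p.1 : ℝ) - P.B - c.1) ^ 2 + ((p.2 : ℝ) - P.B - c.2) ^ 2 := by
    simp only [dsq, toZ]; push_cast; ring
  have h2 : (0:ℝ) < ((P.den : ℝ) * P.E) ^ 2 := by positivity
  have : dsq c (toZ P.B p) * P.dn * ((P.den : ℝ) * P.E) ^ 2 < P.num * ((P.den : ℝ) * P.E) ^ 2 := by
    refine lt_of_le_of_lt ?_ hi
    rw [e]
    have := mul_le_mul_of_nonneg_left (add_le_add k1 k2) hdn.le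
    linarith
  exact lt_of_mul_lt_mul_right this h2.le

lemma c0_InS (P : Par) : InS P P.c0 := by
  constructor <;> rw [sub_self, abs_zero] <;> positivity

lemma filter_or {α : Type*} (f g : α → Bool) (h : ∀ x, ¬ (f x = true ∧ g x = true)) (l : List α) :
    (l.filter (fun x => f x || g x)).length = (l.filter f).length + (l.filter g).length := by
  induction l with
  | nil => rfl
  | cons a l ih =>
    have := h a
    rw [List.filter_cons, List.filter_cons, List.filter_cons]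
    cases hf : f a <;> cases hg : g a <;> simp_all <;> omega

/-- the vectors of the boundary points, in an edge direction -/
def vec (P : Par) (e : Fin 4) (p : ℕ × ℕ) : ℤ × ℤ :=
  let q1 : ℤ := (P.den * p.1 : ℕ) - (P.ux + P.den * P.B : ℕ)
  let q2 : ℤ := (P.den * p.2 : ℕ) - (P.uy + P.den * P.B : ℕ)
  match e with
  | 0 => (q1, q2)
  | 1 => (-q1, q2)
  | 2 => (q2, q1)
  | 3 => (-q2, q1)

/-- the point is kept in the sector -/
def kept (P : Par) (m i : ℕ) (a : ℤ × ℤ) : Bool :=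
  decide ((m * P.den : ℤ) < P.E * (m * a.1 + (i - m) * a.2)) &&
  decide ((m * P.den : ℤ) < P.E * (m * a.1 + (i + 1 - m) * a.2))

/-- the sector check -/
def sec (P : Par) (m : ℕ) (L : List (ℤ × ℤ)) (j : ℕ) : Bool :=
  (List.range (2 * m)).all fun i => Nat.ble j (L.filter (kept P m i)).length

lemma sec_sound (hP : P.Ok) {m : ℕ} (hm : 0 < m) {L : List (ℤ × ℤ)} {j : ℕ} (h : sec P m L j = true)
    {s : ℝ} (hs : s ∈ Icc (-1:ℝ) 1) (D : ℤ × ℤ → Bool)
    (hD : ∀ a : ℤ × ℤ, (P.den : ℝ) < P.E * (a.1 + s * a.2) → D a = true) :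
    j ≤ (L.filter D).length := by
  have hm' : (0:ℝ) < m := by exact_mod_cast hm
  have hE : (0:ℝ) < P.E := by exact_mod_cast hP.E
  -- the index
  obtain ⟨i, hi, h1, h2⟩ : ∃ i < 2 * m, ((i : ℝ) - m) ≤ m * s ∧ m * s ≤ i + 1 - m := by
    rcases hs.2.eq_or_lt with h1 | h1
    · refine ⟨2 * m - 1, by omega, ?_, ?_⟩ <;> rw [h1, Nat.cast_sub (by omega)] <;> push_cast <;> linarith
    · have h0 : 0 ≤ m * (s + 1) := mul_nonneg hm'.le (by linarith [hs.1])
      refine ⟨⌊m * (s + 1)⌋₊, ?_, ?_, ?_⟩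
      · rw [Nat.floor_lt h0]
        push_cast
        nlinarith
      · have := Nat.floor_le h0
        linarith
      · have := Nat.lt_floor_add_one (m * (s + 1))
        linarith
  unfold sec at h
  rw [List.all_eq_true] at h
  have h3 := h i (List.mem_range.2 hi)
  rw [Nat.ble_eq] at h3
  refine h3.trans ?_
  apply List.Sublist.length_le
  apply List.monotone_filter_right
  intro a ha
  apply hD
  unfold kept at ha
  rw [Bool.and_eq_true, decide_eq_true_eq, decide_eq_true_eq] at ha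
  obtain ⟨a1, a2⟩ := ha
  have b1 : (m : ℝ) * P.den < P.E * (m * a.1 + (i - m) * a.2) := by exact_mod_cast a1
  have b2 : (m : ℝ) * P.den < P.E * (m * a.1 + (i + 1 - m) * a.2) := by exact_mod_cast a2
  have b3 : (m : ℝ) * P.den < P.E * (m * a.1 + (m * s) * a.2) := by
    have c1 : 0 ≤ m * s - (i - m) := by linarith
    have c2 : 0 ≤ i + 1 - m - m * s := by linarith
    have e : (P.E : ℝ) * (m * a.1 + (m * s) * a.2) =
        (i + 1 - m - m * s) * (P.E * (m * a.1 + (i - m) * a.2)) +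
        (m * s - (i - m)) * (P.E * (m * a.1 + (i + 1 - m) * a.2)) := by ring
    rw [e]
    have e2 : (m : ℝ) * P.den = (i + 1 - m - m * s) * (m * P.den) + (m * s - (i - m)) * (m * P.den) := by ring
    rw [e2]
    rcases c1.eq_or_lt with c1' | c1'
    · rw [← c1']
      have : (i + 1 - m - m * s) = 1 := by linarith
      rw [this]
      linarith
    · have := mul_lt_mul_of_pos_left b2 c1'
      have := mul_le_mul_of_nonneg_left b1.le c2
      linarith
  have b4 : (m : ℝ) * P.den < m * (P.E * (a.1 + s * a.2)) := by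
    calc (m : ℝ) * P.den < _ := b3
      _ = _ := by ring
  exact lt_of_mul_lt_mul_left b4 hm'.le

/-- the condition that a boundary point is kept in an edge direction -/
lemma vec_cast (e : Fin 4) (p : ℕ × ℕ) :
    let q1 : ℝ := (P.den : ℝ) * p.1 - (P.ux + P.den * P.B)
    let q2 : ℝ := (P.den : ℝ) * p.2 - (P.uy + P.den * P.B)
    ((vec P e p).1 : ℝ) = (match e with | 0 => q1 | 1 => -q1 | 2 => q2 | 3 => -q2) ∧
    ((vec P e p).2 : ℝ) = (match e with | 0 => q2 | 1 => q2 | 2 => q1 | 3 => q1) := by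
  fin_cases e <;> simp [vec]

lemma keep_real (hP : P.Ok) {p : ℕ × ℕ} (hp : onb P p = true) {c w : ℝ × ℝ} {t : ℝ} (ht : 0 < t)
    (htE : t ≤ 1 / P.E) (hc : c = (P.c0.1 + t * w.1, P.c0.2 + t * w.2)) (hw : w.1 ^ 2 + w.2 ^ 2 ≤ 2)
    (h : (P.den : ℝ) < P.E * (((P.den : ℝ) * p.1 - (P.ux + P.den * P.B)) * w.1 +
      ((P.den : ℝ) * p.2 - (P.uy + P.den * P.B)) * w.2)) : dsq c (toZ P.B p) < P.rho2 := by
  have hden : (0:ℝ) < P.den := by exact_mod_cast hP.den
  have hE : (0:ℝ) < P.E := by exact_mod_cast hP.E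
  have h0 := (onb_iff hP p).1 hp
  rw [← h0]
  set a1 : ℝ := (toZ P.B p).1 - P.c0.1 with ha1
  set a2 : ℝ := (toZ P.B p).2 - P.c0.2 with ha2
  have e1 : (P.den : ℝ) * p.1 - (P.ux + P.den * P.B) = P.den * a1 := by
    rw [ha1]; simp only [toZ, Par.c0]; push_cast; field_simp; ring
  have e2 : (P.den : ℝ) * p.2 - (P.uy + P.den * P.B) = P.den * a2 := by
    rw [ha2]; simp only [toZ, Par.c0]; push_cast; field_simp; ring
  rw [e1, e2] at h
  have h1 : 1 < P.E * (a1 * w.1 + a2 * w.2) := by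
    have : (P.den : ℝ) * 1 < P.den * (P.E * (a1 * w.1 + a2 * w.2)) := by
      calc (P.den : ℝ) * 1 = P.den := mul_one _
        _ < _ := h
        _ = _ := by ring
    exact lt_of_mul_lt_mul_left this hden.le
  have h2 : 1 / P.E < a1 * w.1 + a2 * w.2 := by
    rw [div_lt_iff₀ hE]; linarith
  have e3 : dsq c (toZ P.B p) = dsq P.c0 (toZ P.B p) - 2 * t * (a1 * w.1 + a2 * w.2) +
      t ^ 2 * (w.1 ^ 2 + w.2 ^ 2) := by
    rw [hc]; simp only [dsq, ha1, ha2]; ring
  rw [e3]
  have h3 : t ^ 2 * (w.1 ^ 2 + w.2 ^ 2) ≤ t ^ 2 * 2 := by gcongr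
  have h4 : t < a1 * w.1 + a2 * w.2 := by linarith
  nlinarith

/-- first coordinate of an edge vector -/
def wx (e : Fin 4) (s : ℝ) : ℝ := match e with | 0 => 1 | 1 => -1 | 2 => s | 3 => s

/-- second coordinate of an edge vector -/
def wy (e : Fin 4) (s : ℝ) : ℝ := match e with | 0 => s | 1 => s | 2 => 1 | 3 => -1

lemma polar {c : ℝ × ℝ} (hc : InS P c) (hne : c ≠ P.c0) : ∃ (t : ℝ) (e : Fin 4) (s : ℝ),
    0 < t ∧ t ≤ 1 / P.E ∧ s ∈ Icc (-1:ℝ) 1 ∧ c = (P.c0.1 + t * wx e s, P.c0.2 + t * wy e s) := by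
  set v1 := c.1 - P.c0.1 with hv1
  set v2 := c.2 - P.c0.2 with hv2
  have hc1 : c.1 = P.c0.1 + v1 := by rw [hv1]; ring
  have hc2 : c.2 = P.c0.2 + v2 := by rw [hv2]; ring
  have hv : ¬ (v1 = 0 ∧ v2 = 0) := by
    rintro ⟨a, b⟩
    apply hne
    apply Prod.ext
    · rw [hc1, a, add_zero]
    · rw [hc2, b, add_zero]
  have hcase : |v2| ≤ |v1| ∨ |v1| ≤ |v2| := le_total _ _
  rcases hcase with h | h
  · have h1 : v1 ≠ 0 := by
      rintro h0
      rw [h0, abs_zero] at h
      exact hv ⟨h0, abs_nonpos_iff.1 h⟩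
    have hp : 0 < |v1| := abs_pos.2 h1
    have hs : v2 / |v1| ∈ Icc (-1:ℝ) 1 := by
      obtain ⟨a, b⟩ := abs_le.1 h
      exact ⟨by rw [le_div_iff₀ hp]; linarith, by rw [div_le_iff₀ hp]; linarith⟩
    have e2 : |v1| * (v2 / |v1|) = v2 := mul_div_cancel₀ _ hp.ne'
    rcases lt_or_gt_of_ne h1 with h2 | h2
    · refine ⟨|v1|, 1, v2 / |v1|, hp, hc.1, hs, ?_⟩
      apply Prod.ext
      · simp only [wx]; rw [hc1, abs_of_neg h2]; ring
      · simp only [wy]; rw [e2, hc2]
    · refine ⟨|v1|, 0, v2 / |v1|, hp, hc.1, hs, ?_⟩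
      apply Prod.ext
      · simp only [wx]; rw [hc1, abs_of_pos h2]; ring
      · simp only [wy]; rw [e2, hc2]
  · have h1 : v2 ≠ 0 := by
      rintro h0
      rw [h0, abs_zero] at h
      exact hv ⟨abs_nonpos_iff.1 h, h0⟩
    have hp : 0 < |v2| := abs_pos.2 h1
    have hs : v1 / |v2| ∈ Icc (-1:ℝ) 1 := by
      obtain ⟨a, b⟩ := abs_le.1 h
      exact ⟨by rw [le_div_iff₀ hp]; linarith, by rw [div_le_iff₀ hp]; linarith⟩
    have e2 : |v2| * (v1 / |v2|) = v1 := mul_div_cancel₀ _ hp.ne'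
    rcases lt_or_gt_of_ne h1 with h2 | h2
    · refine ⟨|v2|, 3, v1 / |v2|, hp, hc.2, hs, ?_⟩
      apply Prod.ext
      · simp only [wx]; rw [e2, hc1]
      · simp only [wy]; rw [hc2, abs_of_neg h2]; ring
    · refine ⟨|v2|, 2, v1 / |v2|, hp, hc.2, hs, ?_⟩
      apply Prod.ext
      · simp only [wx]; rw [e2, hc1]
      · simp only [wy]; rw [hc2, abs_of_pos h2]; ring

lemma special (hP : P.Ok) {W m j : ℕ} (hm : 0 < m) {Bl : List (ℕ × ℕ)}
    (hB : (grid W).filter (onb P) = Bl)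
    (hsec : ∀ e : Fin 4, sec P m (Bl.map (vec P e)) j = true) {c : ℝ × ℝ} (hc : InS P c)
    (hne : c ≠ P.c0) : ((grid W).filter (insS P)).length + j ≤ op c P.rho2 := by
  classical
  have hden : (0:ℝ) < P.den := by exact_mod_cast hP.den
  have hE : (0:ℝ) < P.E := by exact_mod_cast hP.E
  -- polar decomposition
  obtain ⟨t, e, s, ht, htE, hs, hcc⟩ := polar hc hne
  have hs2 : s ^ 2 ≤ 1 := by
    have := abs_le.2 ⟨hs.1, hs.2⟩
    rw [← sq_abs]; exact pow_le_one₀ (abs_nonneg _) this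
  set D : ℕ × ℕ → Bool := fun p => insS P p || (onb P p && decide (dsq c (toZ P.B p) < P.rho2)) with hDdef
  have h1 := length_le_ncard P.B W {p : ℤ × ℤ | dsq c p < P.rho2} (fin_op c P.rho2) D (by
    intro p hp
    rw [hDdef] at hp
    simp only [Bool.or_eq_true, Bool.and_eq_true, decide_eq_true_eq] at hp
    rcases hp with h | h
    · exact insS_sound hP h hc
    · exact h.2)
  refine le_trans ?_ h1
  rw [hDdef, filter_or]
  · apply Nat.add_le_add_left
    rw [← List.filter_filter, List.filter_comm, hB]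
    have h2 := sec_sound hP hm (hsec e) hs (fun a => decide ((P.den : ℝ) < P.E * (a.1 + s * a.2)))
      (fun a ha => by simpa using ha)
    rw [List.filter_map, List.length_map] at h2
    refine h2.trans ?_
    apply List.Sublist.length_le
    have key : ∀ p ∈ Bl, ((fun a : ℤ × ℤ => decide ((P.den : ℝ) < P.E * (a.1 + s * a.2))) ∘ vec P e) p = true →
        decide (dsq c (toZ P.B p) < P.rho2) = true := by
      intro p hp ha
      have hon : onb P p = true := by
        rw [← hB, List.mem_filter] at hp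
        exact hp.2
      simp only [Function.comp, decide_eq_true_eq] at ha ⊢
      obtain ⟨e1, e2⟩ := vec_cast (P := P) e p
      rw [e1, e2] at ha
      refine keep_real (w := (wx e s, wy e s)) hP hon ht htE hcc ?_ ?_
      · fin_cases e <;> simp only [wx, wy] <;> nlinarith
      · refine lt_of_lt_of_eq ha ?_
        fin_cases e <;> simp only [wx, wy] <;> ring
    have e3 : Bl.filter ((fun a : ℤ × ℤ => decide ((P.den : ℝ) < P.E * (a.1 + s * a.2))) ∘ vec P e) =
        (Bl.filter (fun p => decide (dsq c (toZ P.B p) < P.rho2))).filter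
          ((fun a : ℤ × ℤ => decide ((P.den : ℝ) < P.E * (a.1 + s * a.2))) ∘ vec P e) := by
      rw [List.filter_filter]
      apply List.filter_congr
      intro p hp
      have := key p hp
      cases h : ((fun a : ℤ × ℤ => decide ((P.den : ℝ) < P.E * (a.1 + s * a.2))) ∘ vec P e) p with
      | true => rw [this h]; rfl
      | false => rfl
    rw [e3]
    exact List.filter_sublist
  · rintro p ⟨ha, hb⟩
    rw [Bool.and_eq_true] at hb
    have h2 := insS_sound hP ha (c0_InS P)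
    rw [(onb_iff hP p).1 hb.1] at h2
    exact lt_irrefl _ h2

end Pool.Agent.R357.MC
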