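import Pool.Agent.R357.MC.Thm

/-!
Row-based counts, for large radii.
-/

set_option autoImplicit false

open Set

namespace Pool.Agent.R357.MC

variable (P : Par)

/-- a piece of a row -/
def seg (a l h : ℕ) : List (ℕ × ℕ) := (List.range' l (h - l)).map fun b => (a, b)

lemma mem_seg {a l h : ℕ} {p : ℕ × ℕ} : p ∈ seg a l h ↔ p.1 = a ∧ l ≤ p.2 ∧ p.2 < h := by
  unfold seg
  simp only [List.mem_map, List.mem_range'_1]
  constructor
  · rintro ⟨b, hb, rfl⟩
    exact ⟨rfl, hb.1, by simp only; omega⟩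
  · rintro ⟨rfl, h1, h2⟩
    exact ⟨p.2, ⟨h1, by omega⟩, rfl⟩

lemma length_seg (a l h : ℕ) : (seg a l h).length = h - l := by simp [seg]

lemma nodup_seg (a l h : ℕ) : (seg a l h).Nodup :=
  (List.nodup_range' (step := 1)).map (fun b b' h => by simpa using h)

/-- candidates of the rows `(l2, l1, h1, h2)`: the points in `[l2, l1)` and `[h1, h2)` -/
def cand : ℕ → List (ℕ × ℕ × ℕ × ℕ) → List (ℕ × ℕ)
  | _, [] => []
  | a, r :: rs => seg a r.1 r.2.1 ++ (seg a r.2.2.1 r.2.2.2 ++ cand (a + 1) rs)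

/-- number of certain points, those in `[l1, h1)` -/
def base : List (ℕ × ℕ × ℕ × ℕ) → ℕ
  | [] => 0
  | r :: rs => (r.2.2.1 - r.2.1) + base rs

/-- the rows are correct -/
def okRows (X Y h : ℕ) : ℕ → List (ℕ × ℕ × ℕ × ℕ) → Bool
  | _, [] => true
  | a, r :: rs => Nat.ble r.1 r.2.1 && (Nat.ble r.2.1 r.2.2.1 && (Nat.ble r.2.2.1 r.2.2.2 &&
      ((Nat.ble r.2.2.1 r.2.1 || (ins P X Y h (a, r.2.1) && ins P X Y h (a, r.2.2.1 - 1))) &&
        okRows X Y h (a + 1) rs)))

/-- all the points which are counted -/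
def full (D : ℕ × ℕ → Bool) : ℕ → List (ℕ × ℕ × ℕ × ℕ) → List (ℕ × ℕ)
  | _, [] => []
  | a, r :: rs => seg a r.2.1 r.2.2.1 ++ ((seg a r.1 r.2.1).filter D ++
      ((seg a r.2.2.1 r.2.2.2).filter D ++ full D (a + 1) rs))

lemma length_full (D : ℕ × ℕ → Bool) (rs : List (ℕ × ℕ × ℕ × ℕ)) : ∀ a,
    (full D a rs).length = base rs + ((cand a rs).filter D).length := by
  induction rs with
  | nil => intro a; rfl
  | cons r rs ih =>
    intro a
    simp only [full, base, cand, List.length_append, List.filter_append, length_seg, ih]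
    omega

lemma le_of_mem_full {D : ℕ × ℕ → Bool} {rs : List (ℕ × ℕ × ℕ × ℕ)} : ∀ {a : ℕ} {p : ℕ × ℕ},
    p ∈ full D a rs → a ≤ p.1 := by
  induction rs with
  | nil => intro a p hp; simp [full] at hp
  | cons r rs ih =>
    intro a p hp
    simp only [full, List.mem_append, List.mem_filter, mem_seg] at hp
    rcases hp with h | h | h | h
    · omega
    · omega
    · omega
    · have := ih h; omega

variable {P}

lemma nodup_full {D : ℕ × ℕ → Bool} {X Y h : ℕ} {rs : List (ℕ × ℕ × ℕ × ℕ)} : ∀ {a : ℕ},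
    okRows P X Y h a rs = true → (full D a rs).Nodup := by
  induction rs with
  | nil => intro a _; exact List.nodup_nil
  | cons r rs ih =>
    intro a hok
    simp only [okRows, Bool.and_eq_true, Nat.ble_eq] at hok
    obtain ⟨h1, h2, h3, -, h4⟩ := hok
    have hr := ih h4
    simp only [full]
    rw [List.nodup_append, List.nodup_append, List.nodup_append]
    refine ⟨nodup_seg _ _ _, ⟨(nodup_seg _ _ _).filter _, ⟨(nodup_seg _ _ _).filter _, hr, ?_⟩, ?_⟩, ?_⟩
    · intro p hp q hq hpq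
      subst hpq
      rw [List.mem_filter, mem_seg] at hp
      have := le_of_mem_full hq
      omega
    · intro p hp q hq hpq
      subst hpq
      rw [List.mem_filter, mem_seg] at hp
      rw [List.mem_append, List.mem_filter, mem_seg] at hq
      rcases hq with hq | hq
      · omega
      · have := le_of_mem_full hq; omega
    · intro p hp q hq hpq
      subst hpq
      rw [mem_seg] at hp
      rw [List.mem_append, List.mem_append, List.mem_filter, List.mem_filter, mem_seg, mem_seg] at hq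
      rcases hq with hq | hq | hq
      · omega
      · omega
      · have := le_of_mem_full hq; omega

lemma inside_full (hP : P.Ok) {D : ℕ × ℕ → Bool} {X Y h : ℕ} {c : ℝ × ℝ} (hc : InBox P X Y h c)
    (hD : ∀ p, D p = true → dsq c (toZ P.B p) < P.rho2) {rs : List (ℕ × ℕ × ℕ × ℕ)} : ∀ {a : ℕ},
    okRows P X Y h a rs = true → ∀ p ∈ full D a rs, dsq c (toZ P.B p) < P.rho2 := by
  induction rs with
  | nil => intro a _ p hp; simp [full] at hp
  | cons r rs ih =>
    intro a hok p hp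
    simp only [okRows, Bool.and_eq_true, Bool.or_eq_true, Nat.ble_eq] at hok
    obtain ⟨h1, h2, h3, h5, h4⟩ := hok
    simp only [full, List.mem_append, List.mem_filter] at hp
    rcases hp with hp | hp | hp | hp
    · rw [mem_seg] at hp
      rcases h5 with h5 | ⟨h5, h6⟩
      · omega
      · have k1 := ins_sound hP h5 hc
        have k2 := ins_sound hP h6 hc
        obtain ⟨e, hl, hh⟩ := hp
        have b1 : (r.2.1 : ℝ) ≤ p.2 := by exact_mod_cast hl
        have b2 : (p.2 : ℝ) ≤ ((r.2.2.1 - 1 : ℕ) : ℝ) := by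
          have : p.2 ≤ r.2.2.1 - 1 := by omega
          exact_mod_cast this
        simp only [dsq, toZ, Int.cast_sub, Int.cast_natCast] at k1 k2 ⊢
        rw [e]
        rcases le_total ((p.2 : ℝ) - P.B - c.2) 0 with hs | hs
        · have : ((p.2 : ℝ) - P.B - c.2) ^ 2 ≤ ((r.2.1 : ℝ) - P.B - c.2) ^ 2 := by nlinarith
          linarith
        · have : ((p.2 : ℝ) - P.B - c.2) ^ 2 ≤ (((r.2.2.1 - 1 : ℕ) : ℝ) - P.B - c.2) ^ 2 := by nlinarith
          linarith
    · exact hD p hp.2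
    · exact hD p hp.2
    · exact ih h4 p hp

lemma nodup_length_le {B : ℕ} {S : Set (ℤ × ℤ)} (hS : S.Finite) {L : List (ℕ × ℕ)} (hL : L.Nodup)
    (h : ∀ p ∈ L, toZ B p ∈ S) : L.length ≤ S.ncard := by
  classical
  have h1 : (L.map (toZ B)).Nodup := hL.map (toZ_inj B)
  have h2 : (((L.map (toZ B)).toFinset : Finset (ℤ × ℤ)) : Set (ℤ × ℤ)) ⊆ S := by
    intro q hq
    simp only [List.coe_toFinset, Set.mem_ofPred_eq, List.mem_map] at hq
    obtain ⟨p, hp, rfl⟩ := hq
    exact h p hp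
  have h3 := Set.ncard_le_ncard h2 hS
  rw [Set.ncard_coe_finset, List.toFinset_card_of_nodup h1, List.length_map] at h3
  exact h3

theorem rows_sound (hP : P.Ok) {X Y h : ℕ} {c : ℝ × ℝ} (hc : InBox P X Y h c) {D : ℕ × ℕ → Bool}
    (hD : ∀ p, D p = true → dsq c (toZ P.B p) < P.rho2) {a : ℕ} {rs : List (ℕ × ℕ × ℕ × ℕ)}
    (hok : okRows P X Y h a rs = true) : base rs + ((cand a rs).filter D).length ≤ op c P.rho2 := by
  rw [← length_full D rs a]
  exact nodup_length_le (fin_op c P.rho2) (nodup_full hok) (inside_full hP hc hD hok)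

/-- near the special centre, with a gap condition -/
lemma special2 (hP : P.Ok) (hrho : P.num ≤ P.dn * P.B ^ 2) {m j : ℕ} (hm : 0 < m) {Bl : List (ℕ × ℕ)}
    (hBn : Bl.Nodup) (hB : ∀ p ∈ Bl, onb P p = true)
    (hE : (3 * P.B * P.E + 2) * (P.dn * P.den ^ 2) < P.E ^ 2)
    (hsec : ∀ e : Fin 4, sec P m (Bl.map (vec P e)) j = true) {c : ℝ × ℝ} (hc : InS P c)
    (hne : c ≠ P.c0) : op P.c0 P.rho2 + j ≤ op c P.rho2 := by
  classical
  have hden : (0:ℝ) < P.den := by exact_mod_cast hP.den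
  have hdn : (0:ℝ) < P.dn := by exact_mod_cast hP.dn
  have hE0 : (0:ℝ) < P.E := by exact_mod_cast hP.E
  -- polar decomposition
  obtain ⟨t, e, s, ht, htE, hs, hcc⟩ : ∃ (t : ℝ) (e : Fin 4) (s : ℝ), 0 < t ∧ t ≤ 1 / P.E ∧ s ∈ Icc (-1:ℝ) 1 ∧
      c = (P.c0.1 + t * wx e s, P.c0.2 + t * wy e s) := polar hc hne
  have hs2 : s ^ 2 ≤ 1 := by
    have := abs_le.2 ⟨hs.1, hs.2⟩
    rw [← sq_abs]; exact pow_le_one₀ (abs_nonneg _) this
  have hw : wx e s ^ 2 + wy e s ^ 2 ≤ 2 := by fin_cases e <;> simp only [wx, wy] <;> nlinarith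
  -- points inside stay inside
  have hin : {q : ℤ × ℤ | dsq P.c0 q < P.rho2} ⊆ {q : ℤ × ℤ | dsq c q < P.rho2} := by
    intro q hq
    have hq' : dsq P.c0 q < P.rho2 := hq
    rcases gap hP q with h2 | h2 | h2
    · exact absurd h2 (ne_of_lt hq')
    · set a1 : ℝ := q.1 - P.c0.1 with ha1
      set a2 : ℝ := q.2 - P.c0.2 with ha2
      have e3 : dsq c q = dsq P.c0 q - 2 * t * (a1 * wx e s + a2 * wy e s) +
          t ^ 2 * (wx e s ^ 2 + wy e s ^ 2) := by
        rw [hcc]; simp only [dsq, ha1, ha2]; ring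
      have hqq : dsq P.c0 q = a1 ^ 2 + a2 ^ 2 := rfl
      have hr := rho_le hP hrho
      have hBn0 : (0:ℝ) ≤ P.B := by positivity
      have hcs : |a1 * wx e s + a2 * wy e s| ≤ 3 / 2 * P.B := by
        apply abs_le_of_sq_le_sq _ (by positivity)
        have h5 : (a1 * wx e s + a2 * wy e s) ^ 2 ≤ (a1 ^ 2 + a2 ^ 2) * (wx e s ^ 2 + wy e s ^ 2) := by
          nlinarith [sq_nonneg (a1 * wy e s - a2 * wx e s)]
        have h6 : (a1 ^ 2 + a2 ^ 2) * (wx e s ^ 2 + wy e s ^ 2) ≤ (P.B : ℝ) ^ 2 * 2 := by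
          apply mul_le_mul _ hw (by positivity) (by positivity)
          rw [← hqq]; linarith
        nlinarith
      have hcs2 := (abs_le.1 hcs).1
      show dsq c q < P.rho2
      rw [e3]
      have h7 : -(2 * t * (a1 * wx e s + a2 * wy e s)) ≤ 2 * t * (3 / 2 * P.B) := by nlinarith
      have h8 : t ^ 2 * (wx e s ^ 2 + wy e s ^ 2) ≤ t ^ 2 * 2 := by gcongr
      have h9 : 2 * t * (3 / 2 * P.B) ≤ 3 * P.B * (1 / P.E) := by
        have : t * (3 * P.B) ≤ (1 / P.E) * (3 * P.B) := by gcongr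
        linarith
      have h10 : t ^ 2 * 2 ≤ (1 / P.E) ^ 2 * 2 := by gcongr
      have h11 : 3 * P.B * (1 / P.E) + (1 / P.E) ^ 2 * 2 < 1 / ((P.dn : ℝ) * P.den ^ 2) := by
        have hEr : (3 * (P.B : ℝ) * P.E + 2) * (P.dn * P.den ^ 2) < (P.E : ℝ) ^ 2 := by exact_mod_cast hE
        rw [lt_div_iff₀ (by positivity)]
        have e5 : (3 * (P.B : ℝ) * (1 / P.E) + (1 / P.E) ^ 2 * 2) * (P.dn * P.den ^ 2) =
            ((3 * (P.B : ℝ) * P.E + 2) * (P.dn * P.den ^ 2)) / (P.E : ℝ) ^ 2 := by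
          field_simp
        rw [e5, div_lt_one (by positivity)]
        exact hEr
      linarith
    · exfalso
      have : 0 < 1 / ((P.dn : ℝ) * P.den ^ 2) := by positivity
      linarith
  -- the kept boundary points
  have h2 := sec_sound hP hm (hsec e) hs (fun a => decide ((P.den : ℝ) < P.E * (a.1 + s * a.2)))
    (fun a ha => by simpa using ha)
  rw [List.filter_map, List.length_map] at h2
  set Fl := Bl.filter ((fun a : ℤ × ℤ => decide ((P.den : ℝ) < P.E * (a.1 + s * a.2))) ∘ vec P e) with hFl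
  have key : ∀ p ∈ Fl, dsq c (toZ P.B p) < P.rho2 ∧ dsq P.c0 (toZ P.B p) = P.rho2 := by
    intro p hp
    rw [hFl, List.mem_filter] at hp
    have hon := hB p hp.1
    have ha := hp.2
    simp only [Function.comp, decide_eq_true_eq] at ha
    obtain ⟨e1, e2⟩ := vec_cast (P := P) e p
    rw [e1, e2] at ha
    refine ⟨?_, (onb_iff hP p).1 hon⟩
    refine keep_real (w := (wx e s, wy e s)) hP hon ht htE hcc hw ?_
    refine lt_of_lt_of_eq ha ?_
    fin_cases e <;> simp only [wx, wy] <;> ring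
  set K : Set (ℤ × ℤ) := {q : ℤ × ℤ | dsq c q < P.rho2 ∧ dsq P.c0 q = P.rho2} with hK
  have hKf : K.Finite := (fin_op c P.rho2).subset fun q hq => hq.1
  have h3 : Fl.length ≤ K.ncard := nodup_length_le hKf (hBn.filter _) key
  unfold op
  have h4 : ({q : ℤ × ℤ | dsq P.c0 q < P.rho2} ∪ K).ncard ≤ {q : ℤ × ℤ | dsq c q < P.rho2}.ncard := by
    apply Set.ncard_le_ncard _ (fin_op c P.rho2)
    exact Set.union_subset hin fun q hq => hq.1
  rw [Set.ncard_union_eq (by
    rw [Set.disjoint_left]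
    intro p hp hq
    exact absurd hq.2 (ne_of_lt hp)) (fin_op _ _) hKf] at h4
  omega

end Pool.Agent.R357.MC
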