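import Pool.Agent.R357.MC.Rows

/-!
Exact row-based counts.
-/

set_option autoImplicit false

open Set

namespace Pool.Agent.R357.MC

variable (P : Par)

/-- squared distance in the first coordinate -/
def dx2 (a : ℕ) : ℕ := ad (P.den * a) (P.ux + P.den * P.B) ^ 2

/-- number of points in the row `a` if `s` is the integral half width -/
def cntRow (a s : ℕ) : ℕ :=
  match Nat.ble (P.num * P.den ^ 2) (dx2 P a) with
  | true => 0
  | false => ((P.uy + P.den * P.B) + s) / P.den + 1 - ((P.uy + P.den * P.B) - s + (P.den - 1)) / P.den

/-- the half width is correct -/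
def okRow (W a s : ℕ) : Bool :=
  Nat.ble (P.num * P.den ^ 2) (dx2 P a) ||
    (Nat.blt (dx2 P a + s ^ 2) (P.num * P.den ^ 2) && (Nat.ble (P.num * P.den ^ 2) (dx2 P a + (s + 1) ^ 2) &&
      (Nat.ble s (P.uy + P.den * P.B) && Nat.blt (((P.uy + P.den * P.B) + s) / P.den) W)))

/-- sum over the rows -/
def rowSum : ℕ → List ℕ → ℕ
  | _, [] => 0
  | a, s :: ss => cntRow P a s + rowSum (a + 1) ss

/-- all rows are correct -/
def okAll (W : ℕ) : ℕ → List ℕ → Bool
  | _, [] => true
  | a, s :: ss => okRow P W a s && okAll W (a + 1) ss

lemma filter_interval (W lo hi : ℕ) (hhi : hi < W) (f : ℕ → Bool) (hf : ∀ b, f b = true ↔ lo ≤ b ∧ b ≤ hi) :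
    ((List.range W).filter f).length = hi + 1 - lo := by
  have h1 : ((List.range W).filter f).toFinset = Finset.Icc lo hi := by
    ext b
    simp only [List.mem_toFinset, List.mem_filter, List.mem_range, Finset.mem_Icc]
    rw [hf]
    constructor
    · exact fun h => h.2
    · exact fun h => ⟨by omega, h⟩
  have h2 := List.toFinset_card_of_nodup ((List.nodup_range (n := W)).filter f)
  rw [h1, Nat.card_Icc] at h2
  omega

variable {P}

lemma row_count (hden : 0 < P.den) (hdn : P.dn = 1) {W a s : ℕ} (h : okRow P W a s = true) :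
    ((List.range W).filter (fun b => inb P (a, b))).length = cntRow P a s := by
  set C := P.uy + P.den * P.B with hC
  have hinb : ∀ b, inb P (a, b) = true ↔ dx2 P a + ad (P.den * b) C ^ 2 < P.num * P.den ^ 2 := by
    intro b
    unfold inb sqd dx2
    rw [Nat.blt_eq, hdn, one_mul]
  unfold cntRow
  unfold okRow at h
  rw [Bool.or_eq_true, Nat.ble_eq] at h
  cases hb : Nat.ble (P.num * P.den ^ 2) (dx2 P a) with
  | true =>
    rw [Nat.ble_eq] at hb
    simp only
    rw [List.length_eq_zero_iff, List.filter_eq_nil_iff]
    intro b _ hb2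
    rw [hinb] at hb2
    omega
  | false =>
    have hb' : ¬ (P.num * P.den ^ 2 ≤ dx2 P a) := by
      intro hc
      rw [← Nat.ble_eq, hb] at hc
      exact absurd hc (by simp)
    simp only
    rcases h with h | h
    · exact absurd h hb'
    · simp only [Bool.and_eq_true, Nat.ble_eq, Nat.blt_eq] at h
      obtain ⟨h1, h2, h3, h4⟩ := h
      rw [← hC] at h3 h4 ⊢
      apply filter_interval _ _ _ h4
      intro b
      rw [hinb]
      have e1 : dx2 P a + ad (P.den * b) C ^ 2 < P.num * P.den ^ 2 ↔ ad (P.den * b) C ≤ s := by
        constructor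
        · intro h5
          by_contra hc
          push Not at hc
          have : (s + 1) ^ 2 ≤ ad (P.den * b) C ^ 2 := Nat.pow_le_pow_left hc 2
          omega
        · intro h5
          have : ad (P.den * b) C ^ 2 ≤ s ^ 2 := Nat.pow_le_pow_left h5 2
          omega
      rw [e1, Nat.le_div_iff_mul_le hden]
      have e2 : (C - s + (P.den - 1)) / P.den ≤ b ↔ C - s ≤ b * P.den := by
        rw [Nat.div_le_iff_le_mul_add_pred hden]
        constructor
        · intro h5
          have : P.den * b = b * P.den := mul_comm _ _
          omega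
        · intro h5
          have : P.den * b = b * P.den := mul_comm _ _
          omega
      rw [e2]
      unfold ad
      have : P.den * b = b * P.den := mul_comm _ _
      constructor
      · intro h5; omega
      · intro h5; omega

lemma rowSum_eq (hden : 0 < P.den) (hdn : P.dn = 1) {W : ℕ} (ss : List ℕ) : ∀ a, okAll P W a ss = true →
    ((List.range' a ss.length).map (fun a => ((List.range W).filter (fun b => inb P (a, b))).length)).sum =
      rowSum P a ss := by
  induction ss with
  | nil => intro a _; rfl
  | cons s ss ih =>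
    intro a h
    unfold okAll at h
    rw [Bool.and_eq_true] at h
    rw [List.length_cons, List.range'_succ, List.map_cons, List.sum_cons, ih (a + 1) h.2,
      row_count hden hdn h.1]
    rfl

lemma grid_filter (W : ℕ) (f : ℕ × ℕ → Bool) : ((grid W).filter f).length =
    ((List.range W).map (fun a => ((List.range W).filter (fun b => f (a, b))).length)).sum := by
  unfold grid
  rw [List.filter_flatMap, List.length_flatMap]
  congr 1
  apply List.map_congr_left
  intro a _
  rw [List.filter_map, List.length_map]
  rfl

/-- exact count from the rows -/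
theorem op_rows (hP : P.Ok) (hdn : P.dn = 1) (hux : 2 * P.ux ≤ P.den) (huy : 2 * P.uy ≤ P.den)
    (hrho : P.num ≤ P.dn * P.B ^ 2) (ss : List ℕ) (hl : ss.length = 2 * P.B + 1)
    (hok : okAll P (2 * P.B + 1) 0 ss = true) : op P.c0 P.rho2 = rowSum P 0 ss := by
  rw [op_grid hP hux huy hrho, grid_filter, ← rowSum_eq hP.den hdn ss 0 hok, hl, List.range_eq_range']

end Pool.Agent.R357.MC
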