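import Pool.Agent.R357.MC.Main
import Pool.Agent.R357.MC.Defs

/-!
Maximal circles: consequences of the check.
-/

set_option autoImplicit false

open Set

namespace Pool.Agent.R357.MC

variable {P : Par}

lemma grid_range {B : ℕ} {a : ℝ} {c : ℝ × ℝ} (h1 : c.1 ∈ Icc (0:ℝ) (1 / 2)) (h2 : c.2 ∈ Icc (0:ℝ) (1 / 2))
    (ha : a ≤ (B : ℝ) ^ 2) {q : ℤ × ℤ} (hq : dsq c q ≤ a) :
    -(B : ℤ) ≤ q.1 ∧ q.1 + B < (2 * B + 1 : ℕ) ∧ -(B : ℤ) ≤ q.2 ∧ q.2 + B < (2 * B + 1 : ℕ) := by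
  have key : ∀ x y : ℝ, x ^ 2 + y ^ 2 ≤ (B : ℝ) ^ 2 → |x| ≤ B := by
    intro x y h
    apply abs_le_of_sq_le_sq _ (Nat.cast_nonneg B)
    nlinarith [sq_nonneg y]
  have hq' : ((q.1 : ℝ) - c.1) ^ 2 + ((q.2 : ℝ) - c.2) ^ 2 ≤ a := hq
  have k1 := abs_le.1 (key _ _ (hq'.trans ha))
  have k2 := abs_le.1 (key ((q.2 : ℝ) - c.2) ((q.1 : ℝ) - c.1) (by linarith))
  obtain ⟨a1, a2⟩ := h1
  obtain ⟨b1, b2⟩ := h2
  have c1 : (-(B : ℝ)) ≤ q.1 := by linarith
  have c2 : (q.1 : ℝ) < B + 1 := by linarith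
  have c3 : (-(B : ℝ)) ≤ q.2 := by linarith
  have c4 : (q.2 : ℝ) < B + 1 := by linarith
  have d1 : (-(B : ℤ)) ≤ q.1 := by exact_mod_cast c1
  have d2 : q.1 < (B : ℤ) + 1 := by exact_mod_cast c2
  have d3 : (-(B : ℤ)) ≤ q.2 := by exact_mod_cast c3
  have d4 : q.2 < (B : ℤ) + 1 := by exact_mod_cast c4
  refine ⟨d1, ?_, d3, ?_⟩ <;> push_cast <;> omega

/-- all numerical conditions -/
structure Cert (P : Par) (n4 fuel m k T : ℕ) (Bl : List (ℕ × ℕ)) : Prop where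
  ok : P.Ok
  hux : 2 * P.ux ≤ P.den
  huy : 2 * P.uy ≤ P.den
  hrho : P.num ≤ P.dn * P.B ^ 2
  hN : P.N = 4 * n4
  hB1 : 1 ≤ P.B
  hm : 0 < m
  hfuel : 2 ^ fuel ∣ 2 * n4
  chk : check P (spc P) fuel (P.N * P.B + n4) (P.N * P.B + n4) n4 (grid (2 * P.B + 1)) T = true
  hk : ((grid (2 * P.B + 1)).filter (inb P)).length = k
  hS : k ≤ ((grid (2 * P.B + 1)).filter (insS P)).length
  hBl : (grid (2 * P.B + 1)).filter (onb P) = Bl
  hsec : ∀ e : Fin 4, sec P m (Bl.map (vec P e)) (T - k) = true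
  hkT : k < T
  hTb : T ≤ k + Bl.length

variable {n4 fuel m k T : ℕ} {Bl : List (ℕ × ℕ)}

lemma c0_mem (hP : P.Ok) (hux : 2 * P.ux ≤ P.den) (huy : 2 * P.uy ≤ P.den) :
    P.c0.1 ∈ Icc (0:ℝ) (1 / 2) ∧ P.c0.2 ∈ Icc (0:ℝ) (1 / 2) := by
  have hden : (0:ℝ) < P.den := by exact_mod_cast hP.den
  have h1 : (2:ℝ) * P.ux ≤ P.den := by exact_mod_cast hux
  have h2 : (2:ℝ) * P.uy ≤ P.den := by exact_mod_cast huy
  refine ⟨⟨by unfold Par.c0; positivity, ?_⟩, ⟨by unfold Par.c0; positivity, ?_⟩⟩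
  · simp only [Par.c0]; rw [div_le_div_iff₀ hden (by norm_num)]; linarith
  · simp only [Par.c0]; rw [div_le_div_iff₀ hden (by norm_num)]; linarith

lemma rho_le (hP : P.Ok) (hrho : P.num ≤ P.dn * P.B ^ 2) : P.rho2 ≤ (P.B : ℝ) ^ 2 := by
  have hdn : (0:ℝ) < P.dn := by exact_mod_cast hP.dn
  unfold Par.rho2
  rw [div_le_iff₀ hdn]
  have : ((P.num : ℕ) : ℝ) ≤ ((P.dn * P.B ^ 2 : ℕ) : ℝ) := by exact_mod_cast hrho
  push_cast at this
  linarith

/-- the number of enclosed points, by the grid -/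
lemma op_grid (hP : P.Ok) (hux : 2 * P.ux ≤ P.den) (huy : 2 * P.uy ≤ P.den) (hrho : P.num ≤ P.dn * P.B ^ 2) :
    op P.c0 P.rho2 = ((grid (2 * P.B + 1)).filter (inb P)).length := by
  obtain ⟨h1, h2⟩ := c0_mem hP hux huy
  unfold op
  symm
  apply length_eq_ncard P.B
  · intro p; exact inb_iff hP p
  · intro q hq
    exact grid_range h1 h2 (rho_le hP hrho) (le_of_lt hq)

/-- the number of points on the circle, by the grid -/
lemma on_grid (hP : P.Ok) (hux : 2 * P.ux ≤ P.den) (huy : 2 * P.uy ≤ P.den) (hrho : P.num ≤ P.dn * P.B ^ 2) :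
    {p : ℤ × ℤ | dsq P.c0 p = P.rho2}.ncard = ((grid (2 * P.B + 1)).filter (onb P)).length := by
  obtain ⟨h1, h2⟩ := c0_mem hP hux huy
  symm
  apply length_eq_ncard P.B
  · intro p; exact onb_iff hP p
  · intro q hq
    exact grid_range h1 h2 (rho_le hP hrho) (le_of_eq hq)

/-- the number of points in the closed disc, by the grid -/
lemma cl_grid (hP : P.Ok) (hux : 2 * P.ux ≤ P.den) (huy : 2 * P.uy ≤ P.den) (hrho : P.num ≤ P.dn * P.B ^ 2) :
    cl P.c0 P.rho2 = ((grid (2 * P.B + 1)).filter (inb P)).length +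
      ((grid (2 * P.B + 1)).filter (onb P)).length := by
  rw [← op_grid hP hux huy hrho, ← on_grid hP hux huy hrho]
  unfold cl op
  have e : {p : ℤ × ℤ | dsq P.c0 p ≤ P.rho2} =
      {p : ℤ × ℤ | dsq P.c0 p < P.rho2} ∪ {p : ℤ × ℤ | dsq P.c0 p = P.rho2} := by
    ext p
    exact le_iff_lt_or_eq (a := dsq P.c0 p) (b := P.rho2)
  rw [e, Set.ncard_union_eq (s := {p : ℤ × ℤ | dsq P.c0 p < P.rho2})
    (t := {p : ℤ × ℤ | dsq P.c0 p = P.rho2}) (by
    rw [Set.disjoint_left]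
    intro p hp hq
    exact absurd (hq : dsq P.c0 p = P.rho2) (ne_of_lt hp)) (fin_op _ _)
    ((fin_cl P.c0 P.rho2).subset fun p (hp : dsq P.c0 p = P.rho2) => (le_of_eq hp : dsq P.c0 p ≤ P.rho2))]

lemma Cert.c0_mem (h : Cert P n4 fuel m k T Bl) : P.c0.1 ∈ Icc (0:ℝ) (1 / 2) ∧ P.c0.2 ∈ Icc (0:ℝ) (1 / 2) := by
  have hden : (0:ℝ) < P.den := by exact_mod_cast h.ok.den
  have h1 : (2:ℝ) * P.ux ≤ P.den := by exact_mod_cast h.hux
  have h2 : (2:ℝ) * P.uy ≤ P.den := by exact_mod_cast h.huy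
  refine ⟨⟨by unfold Par.c0; positivity, ?_⟩, ⟨by unfold Par.c0; positivity, ?_⟩⟩
  · simp only [Par.c0]; rw [div_le_div_iff₀ hden (by norm_num)]; linarith
  · simp only [Par.c0]; rw [div_le_div_iff₀ hden (by norm_num)]; linarith

lemma Cert.rho_le (h : Cert P n4 fuel m k T Bl) : P.rho2 ≤ (P.B : ℝ) ^ 2 := by
  have hdn : (0:ℝ) < P.dn := by exact_mod_cast h.ok.dn
  unfold Par.rho2
  rw [div_le_iff₀ hdn]
  have : ((P.num : ℕ) : ℝ) ≤ ((P.dn * P.B ^ 2 : ℕ) : ℝ) := by exact_mod_cast h.hrho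
  push_cast at this
  linarith

lemma Cert.op_c0 (h : Cert P n4 fuel m k T Bl) : op P.c0 P.rho2 = k := by
  obtain ⟨h1, h2⟩ := h.c0_mem
  rw [← h.hk]
  unfold op
  symm
  apply length_eq_ncard P.B
  · intro p; exact inb_iff h.ok p
  · intro q hq
    exact grid_range h1 h2 h.rho_le (le_of_lt hq)

lemma Cert.on_c0 (h : Cert P n4 fuel m k T Bl) : {p : ℤ × ℤ | dsq P.c0 p = P.rho2}.ncard = Bl.length := by
  obtain ⟨h1, h2⟩ := h.c0_mem
  rw [← h.hBl]
  symm
  apply length_eq_ncard P.B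
  · intro p; exact onb_iff h.ok p
  · intro q hq
    exact grid_range h1 h2 h.rho_le (le_of_eq hq)

lemma Cert.cl_c0 (h : Cert P n4 fuel m k T Bl) : cl P.c0 P.rho2 = k + Bl.length := by
  rw [← h.op_c0, ← h.on_c0]
  unfold cl op
  have e : {p : ℤ × ℤ | dsq P.c0 p ≤ P.rho2} =
      {p : ℤ × ℤ | dsq P.c0 p < P.rho2} ∪ {p : ℤ × ℤ | dsq P.c0 p = P.rho2} := by
    ext p
    exact le_iff_lt_or_eq (a := dsq P.c0 p) (b := P.rho2)
  rw [e, Set.ncard_union_eq (s := {p : ℤ × ℤ | dsq P.c0 p < P.rho2})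
    (t := {p : ℤ × ℤ | dsq P.c0 p = P.rho2}) (by
    rw [Set.disjoint_left]
    intro p hp hq
    exact absurd (hq : dsq P.c0 p = P.rho2) (ne_of_lt hp)) (fin_op _ _)
    ((fin_cl P.c0 P.rho2).subset fun p (hp : dsq P.c0 p = P.rho2) => (le_of_eq hp : dsq P.c0 p ≤ P.rho2))]

theorem Cert.all (h : Cert P n4 fuel m k T Bl) (c : ℝ × ℝ) :
    T ≤ op c P.rho2 ∨ (op c P.rho2 = k ∧ T ≤ cl c P.rho2) := by
  classical
  obtain ⟨c', h1, h2, h3, h4⟩ := reduce c
  rw [(h4 _).1, (h4 _).2]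
  by_cases hc0 : c' = P.c0
  · right
    rw [hc0, h.op_c0, h.cl_c0]
    exact ⟨rfl, h.hTb⟩
  left
  have hN : (0:ℝ) < P.N := by exact_mod_cast h.ok.N
  have hn4 : (P.N : ℝ) = 4 * n4 := by exact_mod_cast h.hN
  have hbox : InBox P (P.N * P.B + n4) (P.N * P.B + n4) n4 c' := by
    have key : ∀ x : ℝ, 0 ≤ x → x ≤ 1 / 2 → |(x + P.B) * P.N - ((P.N * P.B + n4 : ℕ) : ℝ)| ≤ n4 := by
      intro x h0 h1
      push_cast
      have : (x + P.B) * P.N - (P.N * P.B + n4) = 4 * n4 * x - n4 := by rw [hn4]; ring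
      rw [this, abs_le]
      have hn : (0:ℝ) ≤ n4 := by positivity
      constructor <;> nlinarith
    exact ⟨key _ (h1.trans h2) h3, key _ h1 (h2.trans h3)⟩
  have hle : n4 ≤ P.N * P.B + n4 := by omega
  rcases check_sound h.ok (fun c p => decide (dsq c (toZ P.B p) < P.rho2)) (fun c p hp => by simpa using hp)
    (spc P) (InS P) (fun _ _ _ _ hb hs => spc_sound h.ok hb hs) fuel _ _ _ _ _ h.hfuel hle hle h.chk c' hbox h2 with hS | hlen
  · have := special h.ok h.hm h.hBl h.hsec hS hc0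
    have h5 := h.hS
    have h6 := h.hkT
    omega
  · refine hlen.trans ?_
    apply length_le_ncard P.B
    · exact fin_op _ _
    · intro p hp
      simpa using hp

lemma enc_eq (c : ℝ × ℝ) (r : ℝ) : enc c r = op c (r ^ 2) := rfl

/-- the radius -/
noncomputable def Par.rho (P : Par) : ℝ := √P.rho2

lemma Par.rho_sq (P : Par) : P.rho ^ 2 = P.rho2 := by
  unfold Par.rho
  apply Real.sq_sqrt
  unfold Par.rho2
  positivity

theorem Cert.isMCCircle (h : Cert P n4 fuel m k T Bl) (hnum : 0 < P.num) : IsMCCircle k P.c0 P.rho := by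
  refine ⟨?_, ?_, ?_⟩
  · unfold Par.rho Par.rho2
    have h1 := h.ok.dn
    positivity
  · rw [enc_eq, P.rho_sq]; exact h.op_c0
  · intro c r hr he
    by_contra hc
    push Not at hc
    have h1 : P.rho2 < r ^ 2 := by
      rw [← P.rho_sq]
      exact pow_lt_pow_left₀ hc (by unfold Par.rho; positivity) (by norm_num)
    have h2 : T ≤ cl c P.rho2 := by
      rcases h.all c with h3 | h3
      · exact h3.trans (op_le_cl _ _)
      · exact h3.2
    have h3 := cl_le_op (c := c) h1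
    rw [enc_eq] at he
    have := h.hkT
    omega

/-- gap between squared distances -/
lemma gap (hP : P.Ok) (q : ℤ × ℤ) : dsq P.c0 q = P.rho2 ∨ dsq P.c0 q ≤ P.rho2 - 1 / (P.dn * P.den ^ 2) ∨
    P.rho2 + 1 / (P.dn * P.den ^ 2) ≤ dsq P.c0 q := by
  have hden : (0:ℝ) < P.den := by exact_mod_cast hP.den
  have hdn : (0:ℝ) < P.dn := by exact_mod_cast hP.dn
  set A : ℤ := P.dn * ((P.den * q.1 - P.ux) ^ 2 + (P.den * q.2 - P.uy) ^ 2) with hA
  set C : ℤ := P.num * P.den ^ 2 with hC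
  have hpos : (0:ℝ) < (P.dn * P.den ^ 2 : ℝ) := by positivity
  have e1 : dsq P.c0 q = A / (P.dn * P.den ^ 2 : ℝ) := by
    rw [hA]; simp only [dsq, Par.c0]; push_cast; field_simp
  have e2 : P.rho2 = C / (P.dn * P.den ^ 2 : ℝ) := by
    rw [hC]; unfold Par.rho2; push_cast; field_simp
  rw [e1, e2]
  rcases lt_trichotomy A C with h | h | h
  · right; left
    rw [← sub_div, div_le_div_iff_of_pos_right hpos]
    have : A ≤ C - 1 := by omega
    exact_mod_cast this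
  · left; rw [h]
  · right; right
    rw [← add_div, div_le_div_iff_of_pos_right hpos]
    have : C + 1 ≤ A := by omega
    exact_mod_cast this

/-- circles which enclose a little more than the circle with the special centre -/
theorem family (hP : P.Ok) (w : ℝ × ℝ) (l : ℝ) (j : ℕ)
    (hj : {q : ℤ × ℤ | dsq P.c0 q = P.rho2 ∧ l < (q.1 - P.c0.1) * w.1 + (q.2 - P.c0.2) * w.2}.ncard = j) :
    ∃ s0 : ℝ, 0 < s0 ∧ ∀ s : ℝ, 0 < s → s ≤ s0 →
      op (P.c0.1 + s * w.1, P.c0.2 + s * w.2) (P.rho2 + s ^ 2 * (w.1 ^ 2 + w.2 ^ 2) - 2 * s * l) =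
        op P.c0 P.rho2 + j := by
  have hden : (0:ℝ) < P.den := by exact_mod_cast hP.den
  have hdn : (0:ℝ) < P.dn := by exact_mod_cast hP.dn
  set g : ℝ := 1 / (P.dn * P.den ^ 2) with hg
  have hg0 : 0 < g := by positivity
  set Kc : ℝ := w.1 ^ 2 + w.2 ^ 2 + 2 * |l| with hKc
  have hK0 : 0 ≤ Kc := by positivity
  have hr0 : 0 ≤ P.rho2 := by unfold Par.rho2; positivity
  refine ⟨g / (2 * (P.rho2 + g + Kc)), by positivity, ?_⟩
  intro s hs hs0
  have hs1 : s * (P.rho2 + g + Kc) ≤ g / 2 := by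
    rw [le_div_iff₀ (by positivity)] at hs0
    linarith
  rw [← hj]
  unfold op
  have hdec : {p : ℤ × ℤ | dsq (P.c0.1 + s * w.1, P.c0.2 + s * w.2) p <
      P.rho2 + s ^ 2 * (w.1 ^ 2 + w.2 ^ 2) - 2 * s * l} =
      {p : ℤ × ℤ | dsq P.c0 p < P.rho2} ∪
      {q : ℤ × ℤ | dsq P.c0 q = P.rho2 ∧ l < (q.1 - P.c0.1) * w.1 + (q.2 - P.c0.2) * w.2} := by
    ext q
    set a1 : ℝ := q.1 - P.c0.1 with ha1
    set a2 : ℝ := q.2 - P.c0.2 with ha2
    have e : dsq (P.c0.1 + s * w.1, P.c0.2 + s * w.2) q = dsq P.c0 q - 2 * s * (a1 * w.1 + a2 * w.2) +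
        s ^ 2 * (w.1 ^ 2 + w.2 ^ 2) := by
      simp only [dsq, ha1, ha2]; ring
    have hq : dsq P.c0 q = a1 ^ 2 + a2 ^ 2 := rfl
    have hl := abs_le.1 (le_refl |l|)
    -- bound for the linear term
    have hb : |2 * ((a1 * w.1 + a2 * w.2) - l)| ≤ dsq P.c0 q + Kc := by
      rw [hq, hKc, abs_le]
      constructor
      · nlinarith [sq_nonneg (a1 + w.1), sq_nonneg (a2 + w.2)]
      · nlinarith [sq_nonneg (a1 - w.1), sq_nonneg (a2 - w.2)]
    have hb' := abs_le.1 hb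
    simp only [Set.mem_ofPred_eq, Set.mem_union]
    rw [e]
    constructor
    · intro h
      have h1 : dsq P.c0 q - P.rho2 < s * (2 * ((a1 * w.1 + a2 * w.2) - l)) := by linarith
      rcases gap hP q with h2 | h2 | h2
      · right
        refine ⟨h2, ?_⟩
        rw [h2, sub_self] at h1
        have := pos_of_mul_pos_right h1 hs.le
        linarith
      · left
        linarith
      · exfalso
        rw [← hg] at h2
        have h3 : s * (2 * ((a1 * w.1 + a2 * w.2) - l)) ≤ s * (dsq P.c0 q + Kc) :=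
          mul_le_mul_of_nonneg_left hb'.2 hs.le
        -- (D - rho2) < s (D + K), D ≥ rho2 + g
        have hs2 : s ≤ 1 / 2 := by
          by_contra hc
          push Not at hc
          have : (1 / 2 : ℝ) * g < s * g := mul_lt_mul_of_pos_right hc hg0
          nlinarith [mul_nonneg hs.le hr0, mul_nonneg hs.le hK0]
        nlinarith [mul_nonneg hs.le hK0, mul_nonneg hs.le (sub_nonneg.2 h2)]
    · rintro (h | ⟨h1, h2⟩)
      · rcases gap hP q with h2 | h2 | h2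
        · exact absurd h2 (ne_of_lt h)
        · rw [← hg] at h2
          have h3 : -(s * (dsq P.c0 q + Kc)) ≤ s * (2 * ((a1 * w.1 + a2 * w.2) - l)) := by
            have := mul_le_mul_of_nonneg_left hb'.1 hs.le
            linarith
          have h4 : s * (dsq P.c0 q + Kc) ≤ s * (P.rho2 + g + Kc) := by
            apply mul_le_mul_of_nonneg_left _ hs.le
            linarith
          linarith
        · rw [← hg] at h2
          linarith
      · rw [h1]
        have := mul_pos hs (sub_pos.2 h2)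
        linarith
  rw [hdec, Set.ncard_union_eq (by
    rw [Set.disjoint_left]
    intro p hp hq
    exact absurd hq.1 (ne_of_lt hp)) (fin_op _ _)
    ((fin_cl P.c0 P.rho2).subset fun p hp => (le_of_eq hp.1 : dsq P.c0 p ≤ P.rho2))]

/-- numbers slightly above a strong one are not MC -/
theorem Cert.not_mc (h : Cert P n4 fuel m k T Bl) (hnum : 0 < P.num) {n j : ℕ} (hn : n = k + j) (hj0 : 0 < j) (hT : n < T)
    (w : ℝ × ℝ) (l : ℝ) (hl : 0 < l)
    (hj : {q : ℤ × ℤ | dsq P.c0 q = P.rho2 ∧ l < (q.1 - P.c0.1) * w.1 + (q.2 - P.c0.2) * w.2}.ncard = j) :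
    ¬ IsMC n := by
  rintro ⟨c, r, hr, he, hmax⟩
  have hrho0 : 0 < P.rho2 := by
    unfold Par.rho2
    have h1 := h.ok.dn
    positivity
  -- r < rho
  have hlt : r ^ 2 < P.rho2 := by
    by_contra hc
    push Not at hc
    rw [enc_eq] at he
    rcases hc.eq_or_lt with h1 | h1
    · rw [← h1] at he
      rcases h.all c with h2 | h2 <;> omega
    · have h2 : T ≤ cl c P.rho2 := by
        rcases h.all c with h3 | h3
        · exact h3.trans (op_le_cl _ _)
        · exact h3.2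
      have h3 := cl_le_op (c := c) h1
      omega
  obtain ⟨s0, hs0, hfam⟩ := family h.ok w l j hj
  -- choose s
  set s : ℝ := min s0 (min 1 ((P.rho2 - r ^ 2) / (2 * l + 1))) / 2 with hs
  have hd : 0 < P.rho2 - r ^ 2 := by linarith
  have hspos : 0 < s := by
    rw [hs]
    have : 0 < (P.rho2 - r ^ 2) / (2 * l + 1) := by positivity
    positivity
  have hs1 : s ≤ s0 := by
    have := min_le_left s0 (min 1 ((P.rho2 - r ^ 2) / (2 * l + 1)))
    rw [hs]; linarith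
  have hs2 : s < (P.rho2 - r ^ 2) / (2 * l + 1) := by
    have h1 : min s0 (min 1 ((P.rho2 - r ^ 2) / (2 * l + 1))) ≤ (P.rho2 - r ^ 2) / (2 * l + 1) :=
      (min_le_right _ _).trans (min_le_right _ _)
    have h2 : 0 < (P.rho2 - r ^ 2) / (2 * l + 1) := by positivity
    rw [hs]; linarith
  have h1 := hfam s hspos hs1
  rw [h.op_c0, ← hn] at h1
  set A := P.rho2 + s ^ 2 * (w.1 ^ 2 + w.2 ^ 2) - 2 * s * l with hA
  have h2 : r ^ 2 < A := by
    rw [lt_div_iff₀ (by positivity)] at hs2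
    have : 0 ≤ s ^ 2 * (w.1 ^ 2 + w.2 ^ 2) := by positivity
    rw [hA]
    linarith
  have hA0 : 0 < A := lt_of_le_of_lt (sq_nonneg r) h2
  have h3 := hmax (P.c0.1 + s * w.1, P.c0.2 + s * w.2) (√A) (Real.sqrt_pos.2 hA0)
    (by rw [enc_eq, Real.sq_sqrt hA0.le]; exact h1)
  have h4 : r < √A := by
    rw [Real.lt_sqrt hr.le]; exact h2
  linarith

/-- count of boundary points with a large scalar product, by the list -/
lemma Cert.count (h : Cert P n4 fuel m k T Bl) (w : ℤ × ℤ) (l : ℤ) :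
    {q : ℤ × ℤ | dsq P.c0 q = P.rho2 ∧ ((l : ℝ) / P.den) < (q.1 - P.c0.1) * ((w.1 : ℤ) : ℝ) + (q.2 - P.c0.2) * ((w.2 : ℤ) : ℝ)}.ncard =
    (Bl.filter (fun p => decide (l < (vec P 0 p).1 * w.1 + (vec P 0 p).2 * w.2))).length := by
  obtain ⟨h1, h2⟩ := h.c0_mem
  have hden : (0:ℝ) < P.den := by exact_mod_cast h.ok.den
  rw [← h.hBl, List.filter_filter]
  symm
  apply length_eq_ncard P.B
  · intro p
    rw [Bool.and_eq_true, decide_eq_true_eq, onb_iff h.ok, Set.mem_ofPred_eq, and_comm]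
    apply and_congr_right
    intro _
    obtain ⟨e1, e2⟩ := vec_cast (P := P) 0 p
    rw [← Int.cast_lt (R := ℝ)]
    push_cast
    rw [e1, e2, div_lt_iff₀ hden]
    have : ((((toZ P.B p).1 : ℤ) : ℝ) - P.c0.1) * (w.1 : ℝ) * P.den + ((((toZ P.B p).2 : ℤ) : ℝ) - P.c0.2) * (w.2 : ℝ) * P.den =
      ((P.den : ℝ) * p.1 - (P.ux + P.den * P.B)) * w.1 + ((P.den : ℝ) * p.2 - (P.uy + P.den * P.B)) * w.2 := by
      simp only [toZ, Par.c0]; push_cast; field_simp; ring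
    constructor
    · intro h; linarith
    · intro h; linarith
  · intro q hq
    exact grid_range h1 h2 h.rho_le (le_of_eq hq.1)

/-- the points on the circle -/
lemma on_eq (P : Par) : onCircle P.c0 P.rho = {p : ℤ × ℤ | dsq P.c0 p = P.rho2} := by
  unfold onCircle
  rw [P.rho_sq]
  rfl

lemma Cert.on_ncard (h : Cert P n4 fuel m k T Bl) : (onCircle P.c0 P.rho).ncard = Bl.length := by
  rw [on_eq, h.on_c0]

end Pool.Agent.R357.MC
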