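import Pool.Agent.R357.MC.Data

/-!
All closed discs of squared radius `49997` have at least `157050` lattice points.
-/

set_option autoImplicit false

open Set

namespace Pool.Agent.R357.MC

/-- the two special squares -/
def sp2 (X Y h : ℕ) : Bool := spc Pa X Y h || spc Pb X Y h

lemma Pa_ok : Pa.Ok := ⟨by decide, by decide, by decide, by decide⟩
lemma Pb_ok : Pb.Ok := ⟨by decide, by decide, by decide, by decide⟩

lemma Pa_rho : Pa.rho2 = 49997 := by unfold Par.rho2 Pa; norm_num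
lemma Pb_rho : Pb.rho2 = 49997 := by unfold Par.rho2 Pb; norm_num
lemma Pa_c0 : Pa.c0 = (0, 0) := by unfold Par.c0 Pa; norm_num
lemma Pb_c0 : Pb.c0 = (2 / 5, 1 / 5) := by unfold Par.c0 Pb; norm_num

theorem rows_ok : okRows Pb (1048576 * 224 + 262144) (1048576 * 224 + 262144) 262144 0 rws = true := by
  decide +kernel

theorem base_eq : base rws = 156620 := by decide +kernel

theorem chk2 : check Pb sp2 19 (1048576 * 224 + 262144) (1048576 * 224 + 262144) 262144 (cand 0 rws) 430 = true := by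
  decide +kernel

theorem opa : op Pa.c0 Pa.rho2 = 157045 := by
  rw [op_rows Pa_ok rfl (by decide) (by decide) (by decide) sa (by decide +kernel) (by decide +kernel)]
  decide +kernel

theorem opb : op Pb.c0 Pb.rho2 = 157049 := by
  rw [op_rows Pb_ok rfl (by decide) (by decide) (by decide) sb (by decide +kernel) (by decide +kernel)]
  decide +kernel

theorem Ba_nodup : Ba.Nodup := by decide +kernel
theorem Bb_nodup : Bb.Nodup := by decide +kernel
theorem Ba_on : ∀ p ∈ Ba, onb Pa p = true := by decide +kernel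
theorem Bb_on : ∀ p ∈ Bb, onb Pb p = true := by decide +kernel
theorem seca : ∀ e : Fin 4, sec Pa 4 (Ba.map (vec Pa e)) 5 = true := by decide +kernel
theorem secb : ∀ e : Fin 4, sec Pb 4 (Bb.map (vec Pb e)) 1 = true := by decide +kernel

/-- the closed disc about the special centre -/
lemma cl_ge {P : Par} (hP : P.Ok) {Bl : List (ℕ × ℕ)} (hn : Bl.Nodup) (hB : ∀ p ∈ Bl, onb P p = true) :
    op P.c0 P.rho2 + Bl.length ≤ cl P.c0 P.rho2 := by
  have hKf : {p : ℤ × ℤ | dsq P.c0 p = P.rho2}.Finite :=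
    (fin_cl P.c0 P.rho2).subset fun p (hp : dsq P.c0 p = P.rho2) => (le_of_eq hp : dsq P.c0 p ≤ P.rho2)
  have h1 : Bl.length ≤ {p : ℤ × ℤ | dsq P.c0 p = P.rho2}.ncard :=
    nodup_length_le hKf hn fun p hp => (onb_iff hP p).1 (hB p hp)
  have h2 : ({p : ℤ × ℤ | dsq P.c0 p < P.rho2} ∪ {p : ℤ × ℤ | dsq P.c0 p = P.rho2}).ncard ≤ cl P.c0 P.rho2 := by
    apply Set.ncard_le_ncard _ (fin_cl P.c0 P.rho2)
    rintro p (hp | hp)
    · exact (le_of_lt (hp : dsq P.c0 p < P.rho2) : dsq P.c0 p ≤ P.rho2)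
    · exact (le_of_eq (hp : dsq P.c0 p = P.rho2) : dsq P.c0 p ≤ P.rho2)
  rw [Set.ncard_union_eq (s := {p : ℤ × ℤ | dsq P.c0 p < P.rho2})
    (t := {p : ℤ × ℤ | dsq P.c0 p = P.rho2}) (by
    rw [Set.disjoint_left]
    intro p hp hq
    exact absurd (hq : dsq P.c0 p = P.rho2) (ne_of_lt hp)) (fin_op _ _) hKf] at h2
  have h3 : op P.c0 P.rho2 = {p : ℤ × ℤ | dsq P.c0 p < P.rho2}.ncard := rfl
  omega

lemma special_case {P : Par} (hP : P.Ok) (hr : P.rho2 = 49997) (hrho : P.num ≤ P.dn * P.B ^ 2) {j k : ℕ} {Bl : List (ℕ × ℕ)}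
    (hBn : Bl.Nodup) (hB : ∀ p ∈ Bl, onb P p = true)
    (hE : (3 * P.B * P.E + 2) * (P.dn * P.den ^ 2) < P.E ^ 2)
    (hsec : ∀ e : Fin 4, sec P 4 (Bl.map (vec P e)) j = true) (hk : op P.c0 P.rho2 = k) (hj : j ≤ Bl.length)
    {c : ℝ × ℝ} (hc : InS P c) : k + j ≤ cl c 49997 := by
  by_cases h : c = P.c0
  · have h1 := cl_ge hP hBn hB
    rw [h, ← hr]
    omega
  · have h1 := special2 hP hrho (by norm_num : 0 < 4) hBn hB hE hsec hc h
    have h2 := op_le_cl c P.rho2
    rw [hr] at h1 h2 hk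
    omega

theorem all2 (c : ℝ × ℝ) : 157050 ≤ cl c 49997 := by
  obtain ⟨c', h1, h2, h3, h4⟩ := reduce c
  rw [(h4 _).2]
  have hbox : InBox Pb (1048576 * 224 + 262144) (1048576 * 224 + 262144) 262144 c' := by
    have key : ∀ x : ℝ, 0 ≤ x → x ≤ 1 / 2 →
        |(x + (Pb.B : ℝ)) * (Pb.N : ℝ) - ((1048576 * 224 + 262144 : ℕ) : ℝ)| ≤ ((262144 : ℕ) : ℝ) := by
      intro x h0 h1
      unfold Pb
      push_cast
      rw [abs_le]
      constructor <;> linarith
    exact ⟨key _ (h1.trans h2) h3, key _ h1 (h2.trans h3)⟩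
  have hs := check_sound Pb_ok (fun c p => decide (dsq c (toZ Pb.B p) < Pb.rho2)) (fun c p hp => by simpa using hp)
    sp2 (fun c => InS Pa c ∨ InS Pb c) (by
      intro X Y h c hb hs
      unfold sp2 at hs
      rw [Bool.or_eq_true] at hs
      rcases hs with hs | hs
      · exact Or.inl (spc_sound Pa_ok hb hs)
      · exact Or.inr (spc_sound Pb_ok hb hs)) 19 _ _ _ _ _ (by norm_num) (by norm_num) (by norm_num) chk2 c' hbox h2
  rcases hs with (hs | hs) | hs
  · have := special_case Pa_ok Pa_rho (by decide) Ba_nodup Ba_on (by decide) seca opa (by decide) hs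
    omega
  · have := special_case Pb_ok Pb_rho (by decide) Bb_nodup Bb_on (by decide) secb opb (by decide) hs
    omega
  · have h5 := rows_sound Pb_ok hbox (D := fun p => decide (dsq c' (toZ Pb.B p) < Pb.rho2))
      (fun p hp => by simpa using hp) rows_ok
    rw [base_eq] at h5
    have h6 := op_le_cl c' Pb.rho2
    rw [Pb_rho] at h5 h6
    rw [Pb_rho] at hs
    omega

end Pool.Agent.R357.MC
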